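import Pool.Agent.Lib.MP_af5b7f_an.R.Lift

/-! The radial sequence. -/

set_option autoImplicit false

open Filter Topology MeasureTheory Set
open scoped ContDiff

noncomputable section

namespace Pool.Agent.Lib.MP_af5b7f_an.R

variable {E : Type} [NormedAddCommGroup E] [InnerProductSpace ℝ E] [FiniteDimensional ℝ E]

/-- the small parameters -/
def ee (k : ℕ) : ℝ := ((k : ℝ) + 4)⁻¹

lemma ee_pos (k : ℕ) : 0 < ee k := by unfold ee; positivity

lemma ee_le (k : ℕ) : ee k ≤ 1 / 4 := by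
  unfold ee
  rw [one_div]
  exact inv_anti₀ (by norm_num) (by linarith [Nat.cast_nonneg (α := ℝ) k])

lemma ee_inv_tendsto : Tendsto (fun k => (ee k)⁻¹) atTop atTop := by
  simp only [ee, inv_inv]
  exact tendsto_atTop_add_const_right _ _ tendsto_natCast_atTop_atTop

lemma ee_tendsto : Tendsto ee atTop (𝓝 0) := by
  have := tendsto_inv_atTop_zero.comp ee_inv_tendsto
  simpa [Function.comp_def] using this

lemma ee_mul_lt (A : ℝ) {η : ℝ} (hη : 0 < η) : ∀ᶠ k in atTop, A * ee k < η := by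
  have := ee_tendsto.const_mul A
  rw [mul_zero] at this
  exact this.eventually_lt_const hη

lemma lambdaOne_pos (n : ℕ) : 0 < lambdaOne n := by
  have := Real.Gamma_pos_of_pos (show 0 < (2 * (n : ℝ) + 1) / 2 by positivity)
  have := Real.pi_pos
  unfold lambdaOne
  positivity

/-- the normalising constant in the definition of spherical blow-up -/
def cc (n : ℕ) : ℝ := 1 / (2 * (n : ℝ)) * Real.log (1 / ((2 * n - 1).factorial : ℝ))

/-- the potentials -/
def VV (n : ℕ) (U f : ℕ → ℝ → ℝ) (k : ℕ) (x : E) : ℝ :=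
  f k (‖x‖ ^ 2) * Real.exp (-(2 * (n : ℝ) * U k (‖x‖ ^ 2)))

/-- the limit function -/
def ph (x : E) : ℝ := -(‖x‖ ^ 4 * (1 - ‖x‖ ^ 2) ^ 2)

omit [InnerProductSpace ℝ E] [FiniteDimensional ℝ E] in
lemma VV_mul (n : ℕ) (U f : ℕ → ℝ → ℝ) (k : ℕ) (x : E) :
    VV n U f k x * Real.exp (2 * (n : ℝ) * lift (U k) x) = f k (‖x‖ ^ 2) := by
  rw [VV, mul_assoc, ← Real.exp_add]
  simp [lift]

omit [InnerProductSpace ℝ E] [FiniteDimensional ℝ E] in
lemma ph_eq : (ph : E → ℝ) = fun x => -1 * lift (p 0) x := by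
  funext x
  simp only [ph, lift, p]
  ring

omit [InnerProductSpace ℝ E] [FiniteDimensional ℝ E] in
lemma sq_mem {x : E} (hx : ‖x‖ ≤ 2) : ‖x‖ ^ 2 ∈ Icc (0 : ℝ) 4 :=
  ⟨by positivity, by nlinarith [norm_nonneg x]⟩

omit [InnerProductSpace ℝ E] [FiniteDimensional ℝ E] in
lemma zeroSet_eq : zeroSet (Metric.ball (0 : E) 2) {0} ph = Metric.sphere 0 1 := by
  ext x
  simp only [zeroSet, ph, mem_ofPred_eq, Set.mem_sdiff, mem_ball_zero_iff, mem_singleton_iff,
    mem_sphere_zero_iff_norm, neg_eq_zero, mul_eq_zero]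
  constructor
  · rintro ⟨⟨-, h0⟩, h | h⟩
    · exact absurd (norm_eq_zero.1 (pow_eq_zero_iff (by norm_num) |>.1 h)) h0
    · have := pow_eq_zero_iff (two_ne_zero) |>.1 h
      nlinarith [norm_nonneg x]
  · intro h
    refine ⟨⟨by linarith, fun h0 => ?_⟩, Or.inr (by simp [h])⟩
    simp [h0] at h

lemma memK_ph {j : ℕ} (hj : 4 ≤ j) (hE : Module.finrank ℝ E = 2 * (j + 1)) :
    MemK (j + 1) (Metric.ball (0 : E) 2) {0} ph := by
  have : Nontrivial E := Module.nontrivial_of_finrank_pos (R := ℝ) (by omega)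
  have hd : Deg 9 (ph : E → ℝ) := ph_eq (E := E) ▸ (deg_p 0).const_mul (-1)
  obtain ⟨e, he⟩ := exists_norm_eq E (show (0 : ℝ) ≤ 1 / 2 by norm_num)
  refine ⟨hd.contDiff.contDiffOn, fun x _ => neg_nonpos.2 (by positivity),
    ⟨e, ⟨by rw [mem_ball_zero_iff, he]; norm_num, fun h => ?_⟩, by rw [ph, he]; norm_num⟩,
    fun x _ => by rw [lapPow_deg _ (hd.mono (by omega))]⟩
  rw [mem_singleton_iff.1 h] at he
  norm_num at he

lemma p_close (N : ℕ) : ∃ M : ℝ, 0 ≤ M ∧ ∀ a : ℝ, 0 ≤ a → a ≤ 1 → ∀ i ≤ N, ∀ s ∈ Icc (0 : ℝ) 4,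
    |iteratedDeriv i (fun s => p 0 s - p a s) s| ≤ M * a := by
  have c1 : ContDiff ℝ ∞ (fun s : ℝ => 2 * s * (1 - s) ^ 2) := by fun_prop
  have c2 : ContDiff ℝ ∞ (fun s : ℝ => (1 - s) ^ 2) := by fun_prop
  obtain ⟨M₁, hM₁, h1⟩ := exists_bound_upto c1 4 N
  obtain ⟨M₂, hM₂, h2⟩ := exists_bound_upto c2 4 N
  refine ⟨M₁ + M₂, by linarith, fun a h0 ha i hi s hs => ?_⟩
  have hs' : ‖s‖ ≤ 4 := abs_le.2 ⟨by linarith [hs.1], hs.2⟩
  have b1 := h1 i hi s hs'
  have b2 := h2 i hi s hs'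
  rw [norm_iteratedFDeriv_eq_norm_iteratedDeriv, Real.norm_eq_abs] at b1 b2
  have e : (fun s => p 0 s - p a s) =
      fun s => a * (2 * s * (1 - s) ^ 2) + -a ^ 2 * (1 - s) ^ 2 := by
    funext s
    unfold p
    ring
  rw [e, iteratedDeriv_fun_add (by fun_prop) (by fun_prop), iteratedDeriv_const_mul_field,
    iteratedDeriv_const_mul_field (-a ^ 2)]
  refine (abs_add_le _ _).trans ?_
  rw [abs_mul, abs_mul, abs_neg, abs_of_nonneg h0, abs_of_nonneg (sq_nonneg a)]
  have : a ^ 2 ≤ a := pow_le_of_le_one h0 ha (by norm_num)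
  calc _ ≤ a * M₁ + a * M₂ := by gcongr
    _ = _ := by ring

section Seq

variable {j : ℕ} {m : ℝ} {B : ℕ → ℝ} {U f : ℕ → ℝ → ℝ}
  (h : ∀ k, Good j m (cc (j + 1)) (ee k) (ee k) (B k) (U k) (f k))

include h

lemma seq_holder {α : ℝ} (h0 : 0 ≤ α) (h1 : α ≤ 1) :
    TendstoCkHolder (2 * (j + 1) - 1) α (Metric.ball (0 : E) 2 \ ({0} ∪ Metric.sphere 0 1))
      (fun k x => lift (U k) x / B k) ph := by
  obtain ⟨M, hM0, hM⟩ := p_close (2 * (j + 1))
  obtain ⟨C, hC, hb⟩ := lift_bound (E := E) (2 * (j + 1))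
  refine holder_of (Metric.isOpen_ball.sdiff (isClosed_singleton.union Metric.isClosed_sphere))
    (fun k => (contDiff_lift (h k).contDiff).div_const _)
    (ph_eq (E := E) ▸ ((deg_p 0).const_mul (-1)).contDiff) _ (fun K hKO hK η hη => ?_) h0 h1
  obtain ⟨d, hd, hdK⟩ := hK.exists_forall_le' (f := fun x : E => min (‖x‖ ^ 2) |‖x‖ ^ 2 - 1|)
    (a := 0) (Continuous.continuousOn (by fun_prop)) fun x hx => by
      have := (hKO hx).2
      simp only [mem_union, mem_singleton_iff, not_or, mem_sphere_zero_iff_norm] at this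
      refine lt_min (pow_pos (norm_pos_iff.2 this.1) _) (abs_pos.2 fun h0 => this.2 ?_)
      nlinarith [norm_nonneg x]
  filter_upwards [ee_mul_lt 2 hd, ee_mul_lt (C * (1 + M)) hη] with k k1 k2 x hx i hi
  have hx2 : ‖x‖ ≤ 2 := (mem_ball_zero_iff.1 (hKO hx).1).le
  have h3 := le_min_iff.1 (hdK x hx)
  have e0 := ee_pos k
  have s1 : ContDiff ℝ ∞ fun s => U k s / B k + p (ee k) s :=
    ((h k).contDiff.div_const _).add (contDiff_p _)
  have s2 : ContDiff ℝ ∞ fun s => p 0 s - p (ee k) s := (contDiff_p _).sub (contDiff_p _)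
  have e : (fun x : E => lift (U k) x / B k - ph x) =
      lift fun s => (U k s / B k + p (ee k) s) + (p 0 s - p (ee k) s) := by
    funext x
    rw [ph_eq]
    simp only [lift]
    ring
  rw [e]
  refine (hb _ ((1 + M) * ee k) x (s1.add s2) hx2 (fun l hl => ?_) i (by omega)).trans
    (by linarith)
  rw [iteratedDeriv_fun_add (s1.contDiffAt.of_le (nat_le_infty l))
    (s2.contDiffAt.of_le (nat_le_infty l))]
  have b1 := (h k).der _ ⟨by linarith [h3.1], (sq_mem hx2).2⟩ (by linarith [h3.2]) l hl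
  have b2 := hM (ee k) e0.le (by linarith [ee_le k]) l hl _ (sq_mem hx2)
  exact (abs_add_le _ _).trans (by linarith)

omit [FiniteDimensional ℝ E] in
lemma seq_not_spherical (hE : Module.finrank ℝ E = 2 * (j + 1)) :
    ¬ IsSpherical (j + 1) (fun k => (lift (U k) : E → ℝ)) 1 0 := by
  have : Nontrivial E := Module.nontrivial_of_finrank_pos (R := ℝ) (by omega)
  obtain ⟨e, he⟩ := exists_norm_eq E (show (0 : ℝ) ≤ 1 by norm_num)
  rintro ⟨σ, x, r, w, hσ, hw, hr, hx, hr0, hT⟩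
  have pt : ∀ y : E, ‖y‖ = 1 → ∀ᶠ k in atTop, -1 < w k (x k + r k • y) + Real.log (r k) := by
    intro y hy
    have h1 := (hT {y} (subset_univ _) isCompact_singleton 0 (Nat.zero_le _)).tendsto_at
      (mem_singleton y)
    have h2 := ((ContinuousMultilinearMap.apply ℝ (fun _ : Fin 0 => E) ℝ
      (fun _ => 0)).continuous.tendsto _).comp h1
    have h3 : Tendsto (fun k => w k (x k + r k • y) + Real.log (r k)) atTop
        (𝓝 (Real.log (2 / (1 + ‖y‖ ^ 2)))) := by simpa [Function.comp_def] using h2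
    refine h3.eventually_const_lt ?_
    rw [hy]
    norm_num
  obtain ⟨k, ⟨k1, k2⟩, ⟨k3, k4⟩, k5⟩ := (((pt e he).and (pt (-e) (by rwa [norm_neg]))).and
    (((hx.norm.eventually_le_const (show ‖(0 : E)‖ < 1 / 4 by simp)).and
      (hr0.eventually_le_const (show (0 : ℝ) < 1 / 4 by norm_num))).and
      ((ee_inv_tendsto.comp hσ.tendsto_atTop).eventually_gt_atTop (1 + cc (j + 1))))).exists
  obtain ⟨ρ, hρ, f1, f2⟩ := (h (σ k)).far
  have hw' : ∀ z, w k z = U (σ k) (‖z‖ ^ 2) + cc (j + 1) := fun z => hw k z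
  have r0 : 0 < r k := by rw [hr]; positivity
  have l0 : Real.log (r k) ≤ 0 := Real.log_nonpos r0.le (by linarith)
  have hρr : ρ ≤ r k := by
    rw [hr, hw']
    exact f1 _ (sq_mem (by linarith))
  have key : ∀ z : E, ‖z‖ ≤ 1 / 2 → -1 < w k z → |‖z‖ ^ 2 - ee (σ k)| < r k ^ 2 / 2 := by
    intro z hz hz'
    by_contra hcon
    have h1 : ρ ^ 2 ≤ r k ^ 2 := by gcongr
    have := f2 (‖z‖ ^ 2) ⟨by positivity, by nlinarith [norm_nonneg z]⟩ (by linarith)
    rw [hw'] at hz'
    simp only [Function.comp] at k5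
    linarith
  have n1 : ∀ y : E, ‖y‖ = 1 → ‖x k + r k • y‖ ≤ 1 / 2 := fun y hy => by
    refine (norm_add_le _ _).trans ?_
    rw [norm_smul, hy, Real.norm_of_nonneg r0.le]
    linarith
  have a0 := key (x k) (by linarith) (by
    have h1 : Real.log (r k) = Real.log 2 + -w k (x k) := by
      rw [hr k, Real.log_mul (by norm_num) (Real.exp_pos _).ne', Real.log_exp]
    linarith [Real.log_two_gt_d9])
  have a1 := key _ (n1 e he) (by linarith)
  have a2 := key _ (n1 (-e) (by rwa [norm_neg])) (by linarith)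
  have par := parallelogram_law_with_norm ℝ (x k) (r k • e)
  rw [norm_smul, he, Real.norm_of_nonneg r0.le] at par
  rw [smul_neg, ← sub_eq_add_neg] at a2
  nlinarith [(abs_lt.1 a0).1, (abs_lt.1 a1).2, (abs_lt.1 a2).2]

variable [MeasurableSpace E] [BorelSpace E] (hE : Module.finrank ℝ E = 2 * (j + 1))
  {Λ : ℝ} (hm : (j + 1) * volume.real (Metric.ball (0 : E) 1) * m = Λ)

omit [MeasurableSpace E] [BorelSpace E] [InnerProductSpace ℝ E] [FiniteDimensional ℝ E] in
lemma cont_f (k : ℕ) : Continuous fun x : E => f k (‖x‖ ^ 2) :=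
  (h k).smooth.continuous.comp (by fun_prop)

lemma int_f (k : ℕ) : IntegrableOn (fun x : E => f k (‖x‖ ^ 2)) (Metric.ball 0 2) :=
  ((cont_f h k).continuousOn.integrableOn_compact (isCompact_closedBall (0 : E) 2)).mono_set
    Metric.ball_subset_closedBall

include hE hm

lemma total_f (k : ℕ) : ∫ x in Metric.ball (0 : E) 2, f k (‖x‖ ^ 2) = Λ := by
  rw [polar hE (h k).smooth.continuous (by norm_num), ← hm, ← (h k).total]
  norm_num

lemma seq_solution (hj : 4 ≤ j) : IsSolutionSeq (j + 1) (Metric.ball (0 : E) 2)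
    (fun k => lift (U k)) (VV (j + 1) U f) (fun _ => 1) := by
  have hc : ∀ k, Continuous (lift (U k) : E → ℝ) := fun k =>
    (contDiff_lift (h k).contDiff).continuous
  have hi : ∀ k, IntegrableOn (fun x : E => Real.exp (2 * ((j + 1 : ℕ) : ℝ) * lift (U k) x))
      (Metric.ball (0 : E) 2) := fun k =>
    (ContinuousOn.integrableOn_compact (isCompact_closedBall (0 : E) 2)
      (Continuous.continuousOn (by have := hc k; fun_prop))).mono_set Metric.ball_subset_closedBall
  refine ⟨fun k => ((contDiff_lift (h k).contDiff).of_le (nat_le_infty _)).contDiffOn, fun k => ?_,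
    fun k x _ => by rw [VV_mul, (h k).eqn hj hE], hi, ⟨3 * Λ, fun k => ?_⟩, ?_,
    continuousOn_const, fun _ _ => one_pos⟩
  · have h1 := (h k).contDiff.continuous
    have h2 := (h k).smooth.continuous
    unfold VV
    fun_prop
  · rw [← total_f h hE hm k, ← integral_const_mul]
    refine setIntegral_mono_on (hi k) ((int_f h k).const_mul 3) measurableSet_ball fun x hx => ?_
    have h1 := (abs_le.1 ((h k).log _ (sq_mem (mem_ball_zero_iff.1 hx).le))).1
    have h2 := ee_le k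
    calc Real.exp (2 * ((j + 1 : ℕ) : ℝ) * lift (U k) x)
        ≤ Real.exp (1 + Real.log (f k (‖x‖ ^ 2))) := Real.exp_le_exp.2 (by unfold lift; linarith)
      _ = Real.exp 1 * f k (‖x‖ ^ 2) := by rw [Real.exp_add, Real.exp_log ((h k).pos _)]
      _ ≤ 3 * f k (‖x‖ ^ 2) :=
          mul_le_mul_of_nonneg_right Real.exp_one_lt_three.le ((h k).pos _).le
  · refine TendstoUniformlyOn.tendstoLocallyUniformlyOn (Metric.tendstoUniformlyOn_iff.2
      fun η hη => ?_)
    filter_upwards [ee_mul_lt 2 hη] with k hk x hx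
    have h1 := (h k).log _ (sq_mem (mem_ball_zero_iff.1 hx).le)
    have h5 := Real.abs_exp_sub_one_le (h1.trans (by linarith [ee_le k]))
    rw [sub_eq_add_neg (Real.log _), Real.exp_add, Real.exp_log ((h k).pos _),
      ← sub_eq_add_neg (Real.log _)] at h5
    rw [Real.dist_eq, abs_sub_comm, VV]
    linarith

lemma mass_tendsto {r : ℝ} (hr : 0 < r) (hr2 : r ≤ 2) :
    Tendsto (fun k => ∫ x in Metric.ball (0 : E) r, f k (‖x‖ ^ 2)) atTop (𝓝 Λ) := by
  have h4 : r ^ 2 ≤ 4 := by nlinarith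
  have h0 : Tendsto (fun k => mass j (f k) (r ^ 2) 4) atTop (𝓝 0) := by
    refine squeeze_zero' (Eventually.of_forall fun k =>
      mass_nonneg j (fun s => ((h k).pos s).le) (by positivity) h4) ?_ ee_tendsto
    filter_upwards [ee_mul_lt 2 (pow_pos hr 2)] with k hk
    exact (mass_mono j (h k).smooth.continuous (fun s => ((h k).pos s).le)
      (by linarith [ee_pos k]) hk.le h4 le_rfl).trans (h k).tail
  have h1 := (h0.const_sub m).const_mul ((j + 1) * volume.real (Metric.ball (0 : E) 1))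
  rw [sub_zero, hm] at h1
  refine h1.congr fun k => ?_
  rw [polar hE (h k).smooth.continuous hr.le, ← (h k).total,
    ← mass_add j (h k).smooth.continuous 0 (r ^ 2) 4, add_sub_cancel_right]

lemma seq_concSet (hΛ : lambdaOne (j + 1) / 2 ≤ Λ) :
    concSet (j + 1) (Metric.ball (0 : E) 2) (fun k => lift (U k)) (VV (j + 1) U f) = {0} := by
  have small : ∀ {d : ℝ}, 0 < d → ∀ᶠ r in 𝓝[>] (0 : ℝ), r ≤ d := fun hd =>
    (eventually_le_nhds hd).filter_mono nhdsWithin_le_nhds
  have hL0 := lambdaOne_pos (j + 1)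
  ext x
  simp only [concSet, VV_mul]
  constructor
  · rintro ⟨hx, L, hL, hT⟩
    by_contra hx0
    have hx1 : 0 < ‖x‖ := norm_pos_iff.2 hx0
    have hx2 : ‖x‖ < 2 := mem_ball_zero_iff.1 hx
    have : L = 0 := by
      refine tendsto_nhds_unique hT (tendsto_const_nhds.congr' ?_)
      filter_upwards [small (half_pos hx1), small (sub_pos.2 hx2)] with r hr1 hr2
      have h1 := (mass_tendsto h hE hm (half_pos hx1) (by linarith)).const_sub Λ
      rw [sub_self] at h1
      refine (Tendsto.liminf_eq (squeeze_zero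
        (fun k => integral_nonneg fun y => ((h k).pos _).le) (fun k => ?_) h1)).symm
      rw [← total_f h hE hm k, ← setIntegral_sdiff measurableSet_ball (int_f h k)
        (Metric.ball_subset_ball (by linarith))]
      refine setIntegral_mono_set ((int_f h k).mono_set sdiff_subset)
        (Eventually.of_forall fun y => ((h k).pos _).le) (LE.le.eventuallyLE fun y hy => ?_)
      rw [mem_ball_iff_norm] at hy
      rw [Set.mem_sdiff, mem_ball_zero_iff, mem_ball_zero_iff, not_lt]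
      have := norm_sub_norm_le x y
      rw [norm_sub_rev] at this
      exact ⟨by linarith [norm_sub_norm_le y x], by linarith⟩
    linarith
  · rintro rfl
    refine ⟨by simp, Λ, hΛ, tendsto_const_nhds.congr' ?_⟩
    filter_upwards [self_mem_nhdsWithin, small two_pos] with r hr hr2
    exact (mass_tendsto h hE hm hr hr2).liminf_eq.symm

end Seq

theorem radial (n : ℕ) (hn : 5 ≤ n) (Λ : ℝ) (hΛ : lambdaOne n / 2 ≤ Λ) :
    ∃ (u V : ℕ → EuclideanSpace ℝ (Fin (2 * n)) → ℝ) (β : ℕ → ℝ),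
      IsSolutionSeq n (Metric.ball 0 2) u V (fun _ => 1) ∧
      (∀ k x y, ‖x‖ = ‖y‖ → u k x = u k y ∧ V k x = V k y) ∧ (∀ k x, 0 < V k x) ∧
      IsBlowUp n (Metric.ball 0 2) u V (fun x => -(‖x‖ ^ 4 * (1 - ‖x‖ ^ 2) ^ 2)) β ∧
      concSet n (Metric.ball 0 2) u V = {0} ∧
      zeroSet (Metric.ball 0 2) (concSet n (Metric.ball 0 2) u V)
        (fun x => -(‖x‖ ^ 4 * (1 - ‖x‖ ^ 2) ^ 2)) = Metric.sphere 0 1 ∧
      (∀ x ∈ Metric.sphere 0 1, Tendsto (fun k => u k x) atTop atTop) ∧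
      (∀ r : ℝ, 0 < r → r ≤ 2 → Tendsto
        (fun k => ∫ y in Metric.ball 0 r, V k y * Real.exp (2 * n * u k y)) atTop (𝓝 Λ)) ∧
      ¬ IsSpherical n u 1 0 := by
  obtain ⟨j, rfl⟩ : ∃ j, n = j + 1 := ⟨n - 1, by omega⟩
  have hj : 4 ≤ j := by omega
  have hE : Module.finrank ℝ (EuclideanSpace ℝ (Fin (2 * (j + 1)))) = 2 * (j + 1) := by simp
  set κ : ℝ := (j + 1) * volume.real (Metric.ball (0 : EuclideanSpace ℝ (Fin (2 * (j + 1)))) 1)
    with hκ
  have hκ0 : 0 < κ := mul_pos (by positivity)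
    (ENNReal.toReal_pos (Metric.measure_ball_pos _ _ one_pos).ne' measure_ball_lt_top.ne)
  have hm : κ * (Λ / κ) = Λ := mul_div_cancel₀ _ hκ0.ne'
  have hΛ0 : 0 < Λ := (half_pos (lambdaOne_pos (j + 1))).trans_le hΛ
  choose B U f h using fun k => exists_good hj (div_pos hΛ0 hκ0) (cc (j + 1))
    (ee_pos k) (ee_le k) (ee_pos k) (by linarith [ee_le k])
  have hS := seq_concSet h hE hm hΛ
  refine ⟨fun k => lift (U k), VV (j + 1) U f, B, seq_solution h hE hm hj,
    fun k x y e => by simp [lift, VV, e], fun k x => mul_pos ((h k).pos _) (Real.exp_pos _), ?_, hS,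
    hS ▸ zeroSet_eq, fun x hx => ?_, fun r h1 h2 => ?_, seq_not_spherical h hE⟩
  · unfold IsBlowUp
    rw [hS]
    refine ⟨finite_singleton _, memK_ph hj hE,
      tendsto_atTop_mono (fun k => (h k).hB) ee_inv_tendsto, fun α h0 h1 => ?_⟩
    have := seq_holder (E := EuclideanSpace ℝ (Fin (2 * (j + 1)))) h h0 h1.le
    rw [← zeroSet_eq] at this
    exact this
  · refine tendsto_atTop_mono (fun k => ?_) ee_inv_tendsto
    simp only [lift, mem_sphere_zero_iff_norm.1 hx, one_pow]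
    exact (h k).one
  · simp only [VV_mul]
    exact mass_tendsto h hE hm h1 h2

end Pool.Agent.Lib.MP_af5b7f_an.R
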