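import Pool.Agent.Lib.MP_af5b7f_an.R.Dens

/-! One member of the sequence, in the variable `s = |x|²`. -/

set_option autoImplicit false

open Filter Topology MeasureTheory Set
open scoped ContDiff

noncomputable section

namespace Pool.Agent.Lib.MP_af5b7f_an.R

/-- The properties of one member of the sequence. -/
structure Good (j : ℕ) (m c₁ a η B : ℝ) (U f : ℝ → ℝ) : Prop where
  hB : η⁻¹ ≤ B
  smooth : ContDiff ℝ ∞ f
  form : ∃ γ c₀ : ℝ, U = fun s => -B * p a s - γ * s + c₀ + (-1) ^ (j + 1) * (T j)^[j + 1] f s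
  pos : ∀ s, 0 < f s
  total : mass j f 0 4 = m
  tail : mass j f (2 * a) 4 ≤ η
  log : ∀ s ∈ Icc (0 : ℝ) 4, |Real.log (f s) - 2 * ((j + 1 : ℕ) : ℝ) * U s| ≤ η
  der : ∀ s ∈ Icc (2 * a) 4, a ≤ |s - 1| → ∀ i ≤ 2 * (j + 1),
    |iteratedDeriv i (fun s => U s / B + p a s) s| ≤ η
  one : η⁻¹ ≤ U 1
  far : ∃ ρ : ℝ, 0 < ρ ∧ (∀ s ∈ Icc (0 : ℝ) 4, ρ ≤ 2 * Real.exp (-(U s + c₁))) ∧
    ∀ s ∈ Icc (0 : ℝ) (1 / 4), ρ ^ 2 / 2 ≤ |s - a| → U s ≤ -η⁻¹

lemma affine_bound (b e : ℝ) (i : ℕ) {s : ℝ} (hs : |s| ≤ 4) :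
    |iteratedDeriv i (fun s => b * s + e) s| ≤ 4 * |b| + |e| := by
  rcases i with _ | i
  · rw [iteratedDeriv_zero]
    refine (abs_add_le _ _).trans ?_
    rw [abs_mul]
    nlinarith [abs_nonneg b]
  · have : deriv (fun s : ℝ => b * s + e) = fun _ => b :=
      funext fun s => by simp
    rw [iteratedDeriv_succ', this, iteratedDeriv_const]
    split_ifs
    · linarith [abs_nonneg b, abs_nonneg e]
    · simp only [abs_zero]
      positivity

lemma exp_drop {c x z : ℝ} (hc : 1 ≤ c) (hz : 0 ≤ z) (hx : z ≤ x) :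
    Real.exp (-(c * x)) ≤ Real.exp (-z) :=
  Real.exp_le_exp.2 (by nlinarith)

lemma ev_conc (j : ℕ) {c a m δ η γ K : ℝ} {W : ℝ → ℝ} (hc : 1 ≤ c) (ha' : a ≤ 1 / 4) (hδ : 0 < δ)
    (hδ' : δ ≤ a / 2) (hη : 0 < η) (hK : 1 ≤ K) (hW : ContDiff ℝ ∞ W) :
    ∀ᶠ y : ℝ in atTop, ∀ c₀ : ℝ, mass j (ff c a γ y c₀ W) 0 4 = m →
      mass j (ff c a γ y c₀ W) (1 / 2) 4 ≤ η / 2 →
      (∀ s ∈ Icc (0 : ℝ) 4, ff c a γ y c₀ W s ≤ K * y ^ 5 * Real.exp (-(c * (y ^ 10 * p a s)))) →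
      Conc j a m δ η (ff c a γ y c₀ W) := by
  filter_upwards [ev_exp K (show 0 < δ ^ 2 / 4 by positivity) hη, eventually_ge_atTop 0]
    with y h1 h2 c₀ h3 h4 h5
  refine conc_of j ha' hδ hδ' (contDiff_ff _ _ _ _ _ hW) (fun s => (ff_pos _ _ _ _ _ _ s).le) h3 h4
    fun s hs hp => (h5 s hs).trans (le_trans ?_ h1)
  exact mul_le_mul_of_nonneg_left (exp_drop hc (by positivity) (by gcongr)) (by positivity)

lemma exists_good {j : ℕ} (hj : 4 ≤ j) {m : ℝ} (hm : 0 < m) (c₁ : ℝ) {a η : ℝ} (ha : 0 < a)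
    (ha' : a ≤ 1 / 4) (hη : 0 < η) (hη1 : η ≤ 1) :
    ∃ (B : ℝ) (U f : ℝ → ℝ), Good j m c₁ a η B U f := by
  set c : ℝ := 2 * ((j + 1 : ℕ) : ℝ) with hcd
  have hc10 : 10 ≤ c := by
    have : (4 : ℝ) ≤ j := by exact_mod_cast hj
    rw [hcd]; push_cast; linarith
  have hc : 1 ≤ c := by linarith
  set L : ℝ := m / (a / 2) ^ (j + 1) with hL
  have hL0 : 0 < L := by positivity
  set q : ℝ := 1 + 1 / a ^ (j + 1) with hq
  have hq1 : 1 ≤ q := le_add_of_nonneg_right (by positivity)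
  set δ : ℝ := min (a / 2) (η / (2 * c * L)) with hδd
  have hδ : 0 < δ := lt_min (by positivity) (by positivity)
  have hδ' : δ ≤ a / 2 := min_le_left _ _
  set η' : ℝ := η / (4 * c * q) with hη'd
  have hη' : 0 < η' := by positivity
  have hη'' : η' ≤ η := div_le_self hη.le (by nlinarith)
  have hsum : c * (2 * η' * q + δ * L) ≤ η := by
    have h1 : c * (2 * η' * q) = η / 2 := by rw [hη'd]; field_simp; norm_num
    have h2 : c * (δ * L) ≤ c * (η / (2 * c * L) * L) := by gcongr; exact min_le_right _ _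
    have h3 : c * (η / (2 * c * L) * L) = η / 2 := by field_simp
    linarith
  obtain ⟨f₀, h₀⟩ : ∃ f₀, Conc j a m δ η' f₀ := by
    obtain ⟨γ, K, -, hK, h⟩ := package j (W := fun _ => 0) hc ha ha' hm (half_pos hη') contDiff_const
    obtain ⟨y, h1, h2⟩ := ((ev_conc j (m := m) (γ := γ) (W := fun _ => 0) hc ha' hδ hδ' hη' hK
      contDiff_const).and (eventually_ge_atTop 2)).exists
    obtain ⟨c₀, a1, a2, a3, -⟩ := h y h2
    exact ⟨_, h1 c₀ a1 a2 a3⟩
  set W : ℝ → ℝ := fun s => (-1) ^ (j + 1) * (T j)^[j + 1] f₀ s with hWd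
  have hW : ContDiff ℝ ∞ W := contDiff_const.mul (contDiff_iter j _ h₀.smooth)
  obtain ⟨γ, K, hγ, hK, h⟩ := package j hc ha ha' hm (half_pos hη') hW
  obtain ⟨C, hC, hder⟩ := iter_deriv_bound j ha (j + 1)
  set κ : ℝ := Real.exp (-c₁) with hκ
  have hκ0 : 0 < κ := Real.exp_pos _
  obtain ⟨y, ⟨e1, e2⟩, ⟨e3, e4⟩, ⟨e5, e6⟩, e7, e8⟩ :=
    (((ev_conc j (m := m) (γ := γ) hc ha' hδ hδ' hη' hK hW).and (eventually_ge_atTop 2)).and
      (((ev_exp K (show 0 < a ^ 4 by positivity) one_pos).and (eventually_ge_atTop η⁻¹)).and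
      (((eventually_ge_atTop K).and (eventually_ge_atTop (4 * γ + C * (1 + L)))).and
      ((eventually_ge_atTop (Real.exp (c * (η⁻¹ + γ + (1 + L))))).and
        (eventually_ge_atTop (1 / κ ^ 4)))))).exists
  obtain ⟨c₀, a1, a2, a3, a4, a5⟩ := h y e2
  have hcon := e1 c₀ a1 a2 a3
  set f := ff c a γ y c₀ W with hf
  have y0 : 0 < y := by linarith
  have y1 : 1 ≤ y := by linarith
  have hA : ∀ t ∈ Icc (0 : ℝ) 4, |A j f t| ≤ 1 + L := fun t ht =>
    (hcon.A_le hδ hδ' t ht).trans (by linarith)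
  have hy4 : y ≤ Real.exp (c * c₀) := by
    have h1 : y * y ≤ y ^ 5 := by
      rw [← sq]
      exact pow_le_pow_right₀ y1 (by norm_num)
    have h2 : K * Real.exp (c * c₀) ≤ y * Real.exp (c * c₀) := by gcongr
    exact le_of_mul_le_mul_left (h1.trans (a4.trans h2)) y0
  have hc₀ : η⁻¹ + γ + (1 + L) ≤ c₀ :=
    le_of_mul_le_mul_left (Real.exp_le_exp.1 (e7.trans hy4)) (by linarith)
  have hηi : 0 < η⁻¹ := inv_pos.2 hη
  have hc₀0 : 0 ≤ c₀ := by linarith
  have hc₀' : c₀ ≤ y ^ 6 := by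
    have h1 := Real.add_one_le_exp (c * c₀)
    have h2 : K * y ^ 5 ≤ y * y ^ 5 := by gcongr
    nlinarith
  have hsg : |(-1 : ℝ) ^ (j + 1)| = 1 := by simp
  have hlog : ∀ s ∈ Icc (0 : ℝ) 4, |Real.log (f s) - c * (-y ^ 10 * p a s - γ * s + c₀ +
      (-1) ^ (j + 1) * (T j)^[j + 1] f s)| ≤ η := by
    intro s hs
    have h1 := iter_close j j (contDiff_T j h₀.smooth) (contDiff_T j hcon.smooth)
      (h₀.close hδ hδ' hcon) s hs
    rw [← Function.iterate_succ_apply, ← Function.iterate_succ_apply] at h1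
    have h2 : Real.log (f s) - c * (-y ^ 10 * p a s - γ * s + c₀ +
        (-1) ^ (j + 1) * (T j)^[j + 1] f s) =
        c * ((-1) ^ (j + 1) * ((T j)^[j + 1] f₀ s - (T j)^[j + 1] f s)) := by
      rw [show Real.log (f s) = c * (-y ^ 10 * p a s - γ * s + c₀ + W s) from Real.log_exp _, hWd]
      ring
    rw [h2, abs_mul c, abs_mul ((-1 : ℝ) ^ (j + 1)), hsg, one_mul, abs_of_pos (by linarith)]
    exact le_trans (by gcongr) hsum
  refine ⟨y ^ 10, _, f, e4.trans (le_self_pow₀ y1 (by norm_num)), hcon.smooth, ⟨γ, c₀, rfl⟩,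
    fun s => ff_pos _ _ _ _ _ _ s, a1, ?_, hlog, fun s hs hs1 i hi => ?_, ?_,
    2 * κ / y, by positivity, ?_⟩
  · exact ((mass_mono j hcon.smooth.continuous hcon.nonneg (by linarith) (by linarith)
      (by linarith) le_rfl).trans hcon.right).trans hη''
  · have hs0 : s ∈ Icc (0 : ℝ) 4 := ⟨by linarith [hs.1], hs.2⟩
    have hg := contDiff_iter j (j + 1) hcon.smooth
    have e : (fun s => (-y ^ 10 * p a s - γ * s + c₀ + (-1) ^ (j + 1) * (T j)^[j + 1] f s) / y ^ 10 +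
        p a s) = fun s => ((-γ * s + c₀) + (-1) ^ (j + 1) * (T j)^[j + 1] f s) / y ^ 10 := by
      funext s
      field_simp
      ring
    have hp : a ^ 4 ≤ p a s := by
      have h1 : a ^ 2 ≤ (s - a) ^ 2 := pow_le_pow_left₀ ha.le (by linarith [hs.1]) 2
      have h2 : a ^ 2 ≤ (1 - s) ^ 2 := by
        rw [← sq_abs (1 - s), abs_sub_comm]
        exact pow_le_pow_left₀ ha.le hs1 2
      calc a ^ 4 = a ^ 2 * a ^ 2 := by ring
        _ ≤ _ := mul_le_mul h1 h2 (by positivity) (by positivity)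
    have hf1 : |f s| ≤ 1 + L := by
      rw [abs_of_nonneg (hcon.nonneg s)]
      refine (a3 s hs0).trans (le_trans ?_ (e3.trans (by linarith)))
      exact mul_le_mul_of_nonneg_left (exp_drop hc (by positivity) (by gcongr)) (by positivity)
    have h1 := hder f (1 + L) s hcon.smooth ⟨by linarith [hs.1], hs.2⟩ hf1 hA i hi
    have h2 := affine_bound (-γ) c₀ i (s := s) (abs_le.2 ⟨by linarith [hs0.1], hs.2⟩)
    have hi' : ((i : ℕ) : WithTop ℕ∞) ≤ ∞ := by exact_mod_cast le_top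
    rw [abs_neg, abs_of_nonneg hγ, abs_of_nonneg hc₀0] at h2
    rw [e, iteratedDeriv_div_const, iteratedDeriv_fun_add (by fun_prop)
      ((contDiff_const.mul hg).contDiffAt.of_le hi'),
      iteratedDeriv_const_mul _ (hg.contDiffAt.of_le hi'), abs_div,
      abs_of_pos (pow_pos y0 10), div_le_iff₀ (pow_pos y0 10)]
    refine (abs_add_le _ _).trans ?_
    rw [abs_mul, hsg, one_mul]
    have h3 : y ≤ y ^ 6 := le_self_pow₀ y1 (by norm_num)
    have h4 : 1 ≤ η * y := by rwa [inv_le_iff_one_le_mul₀' hη] at e4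
    have h5 : 2 ≤ y ^ 3 := e2.trans (le_self_pow₀ y1 (by norm_num))
    calc _ ≤ 1 * (2 * y ^ 6) := by linarith
      _ ≤ η * y * (y ^ 3 * y ^ 6) := by gcongr
      _ = _ := by ring
  · have h1 := abs_T_le j (abs_A_iter j j hA) (t := 1) ⟨zero_le_one, by norm_num⟩
    rw [← Function.iterate_succ_apply' (T j)] at h1
    have h2 : |(-1 : ℝ) ^ (j + 1) * (T j)^[j + 1] f 1| ≤ 1 + L := by rwa [abs_mul, hsg, one_mul]
    have h3 : p a 1 = 0 := by simp [p]
    simp only [h3]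
    linarith [(abs_le.1 h2).1]
  · have key : ∀ s ∈ Icc (0 : ℝ) 4, -y ^ 10 * p a s - γ * s + c₀ +
        (-1) ^ (j + 1) * (T j)^[j + 1] f s + y ^ 10 * p a s ≤ Real.log y := by
      intro s hs
      have h1 := (abs_le.1 (hlog s hs)).1
      have h2 := Real.log_le_log (ff_pos _ _ _ _ _ _ s) (a3 s hs)
      rw [Real.log_mul (by positivity) (Real.exp_pos _).ne', Real.log_exp,
        Real.log_mul (by positivity) (by positivity), Real.log_pow] at h2
      have h3 := Real.log_le_log (by linarith) e5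
      have h4 := Real.log_le_log (by norm_num) e2
      have h5 := Real.log_two_gt_d9
      refine le_of_mul_le_mul_left (a := c) ?_ (by linarith)
      have h6 : 10 * Real.log y ≤ c * Real.log y := by gcongr; linarith
      push_cast at h2
      change Real.log (f s) ≤ _ at h2
      linarith
    refine ⟨fun s hs => ?_, fun s hs hρ => ?_⟩
    · have h1 := key s hs
      have h2 : 0 ≤ y ^ 10 * p a s := mul_nonneg (by positivity) (p_nonneg a s)
      have h3 : κ / y = Real.exp (-(Real.log y + c₁)) := by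
        rw [neg_add, Real.exp_add, Real.exp_neg, Real.exp_log y0, hκ]
        ring
      rw [mul_div_assoc, h3]
      gcongr
      linarith
    · have h1 := key s ⟨hs.1, by linarith [hs.2]⟩
      have h2 : ((2 * κ / y) ^ 2 / 2) ^ 2 ≤ (s - a) ^ 2 := by
        rw [← sq_abs (s - a)]
        exact pow_le_pow_left₀ (by positivity) hρ 2
      have h3 : 1 / 2 ≤ (1 - s) ^ 2 := by nlinarith [hs.1, hs.2]
      have h4 : y ^ 10 * (((2 * κ / y) ^ 2 / 2) ^ 2 * (1 / 2)) ≤ y ^ 10 * p a s := by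
        unfold p
        gcongr
      have h5 : y ^ 10 * (((2 * κ / y) ^ 2 / 2) ^ 2 * (1 / 2)) = 2 * y * (y ^ 5 * κ ^ 4) := by
        field_simp
      have h6 : 1 ≤ y ^ 5 * κ ^ 4 := by
        rw [div_le_iff₀ (by positivity)] at e8
        exact e8.trans (by gcongr; exact le_self_pow₀ y1 (by norm_num))
      have h7 := Real.log_le_self y0.le
      nlinarith

end Pool.Agent.Lib.MP_af5b7f_an.R
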