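import Pool.Agent.Lib.MP_af5b7f_an.R.Op

/-! Densities that concentrate at `s = a`. -/

set_option autoImplicit false

open Filter Topology MeasureTheory Set
open scoped ContDiff

noncomputable section

namespace Pool.Agent.Lib.MP_af5b7f_an.R

/-- the polynomial with double zeros at `a` and `1` -/
def p (a s : ℝ) : ℝ := (s - a) ^ 2 * (1 - s) ^ 2

lemma p_nonneg (a s : ℝ) : 0 ≤ p a s := by unfold p; positivity

lemma contDiff_p (a : ℝ) : ContDiff ℝ ∞ (p a) := by unfold p; fun_prop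

/-- the density -/
def ff (c a γ y c₀ : ℝ) (W : ℝ → ℝ) (s : ℝ) : ℝ :=
  Real.exp (c * (-y ^ 10 * p a s - γ * s + c₀ + W s))

lemma ff_pos (c a γ y c₀ : ℝ) (W : ℝ → ℝ) (s : ℝ) : 0 < ff c a γ y c₀ W s := Real.exp_pos _

lemma contDiff_ff (c a γ y c₀ : ℝ) {W : ℝ → ℝ} (hW : ContDiff ℝ ∞ W) :
    ContDiff ℝ ∞ (ff c a γ y c₀ W) := by
  have := contDiff_p a
  unfold ff
  fun_prop

lemma ff_eq (c a γ y c₀ : ℝ) (W : ℝ → ℝ) (s : ℝ) :
    ff c a γ y c₀ W s = Real.exp (c * c₀) * ff c a γ y 0 W s := by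
  rw [ff, ff, ← Real.exp_add]
  congr 1
  ring

lemma mass_ff (j : ℕ) (c a γ y c₀ : ℝ) (W : ℝ → ℝ) (u v : ℝ) :
    mass j (ff c a γ y c₀ W) u v = Real.exp (c * c₀) * mass j (ff c a γ y 0 W) u v := by
  rw [mass, mass, ← intervalIntegral.integral_const_mul]
  congr 1
  funext s
  rw [ff_eq]
  ring

lemma mass_add (j : ℕ) {f : ℝ → ℝ} (hf : Continuous f) (u v w : ℝ) :
    mass j f u v + mass j f v w = mass j f u w :=
  intervalIntegral.integral_add_adjacent_intervals (Continuous.intervalIntegrable (by fun_prop) _ _)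
    (Continuous.intervalIntegrable (by fun_prop) _ _)

lemma mass_nonneg (j : ℕ) {f : ℝ → ℝ} (hf : ∀ s, 0 ≤ f s) {u v : ℝ} (hu : 0 ≤ u) (huv : u ≤ v) :
    0 ≤ mass j f u v :=
  intervalIntegral.integral_nonneg huv fun s hs => mul_nonneg (pow_nonneg (hu.trans hs.1) _) (hf s)

lemma mass_mono (j : ℕ) {f : ℝ → ℝ} (hc : Continuous f) (hf : ∀ s, 0 ≤ f s) {u u' v v' : ℝ}
    (hu : 0 ≤ u') (h1 : u' ≤ u) (h2 : u ≤ v) (h3 : v ≤ v') : mass j f u v ≤ mass j f u' v' := by
  have a1 := mass_add j hc u' u v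
  have a2 := mass_add j hc u' v v'
  linarith [mass_nonneg j hf hu h1, mass_nonneg j hf (hu.trans (h1.trans h2)) h3]

section

variable (j : ℕ) {c a γ y M : ℝ} {W : ℝ → ℝ} (hc : 1 ≤ c) (ha : 0 < a) (ha' : a ≤ 1 / 4)
  (hγ : 0 ≤ γ) (hy : 2 ≤ y) (hW : ContDiff ℝ ∞ W) (hM : ∀ s ∈ Icc (0 : ℝ) 4, |W s| ≤ M)

include hc ha ha' hγ hy hW hM in
lemma Z_ge : a ^ j * Real.exp (-(c * (1 + γ * (3 / 10) + M))) / y ^ 5 ≤
    mass j (ff c a γ y 0 W) 0 4 := by
  have hcf := (contDiff_ff c a γ y 0 hW).continuous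
  have h5 : (32 : ℝ) ≤ y ^ 5 := le_trans (by norm_num) (pow_le_pow_left₀ (by norm_num) hy 5)
  have h6 : 1 / y ^ 5 ≤ 1 / 32 := by gcongr
  have h7 : 0 < 1 / y ^ 5 := by positivity
  refine le_trans ?_ (mass_mono j hcf (fun s => (ff_pos _ _ _ _ _ _ s).le) (u := a)
    (v := a + 1 / y ^ 5) le_rfl ha.le (by linarith) (by linarith))
  have := intervalIntegral.integral_mono_on (μ := volume) (a := a) (b := a + 1 / y ^ 5)
    (f := fun _ => a ^ j * Real.exp (-(c * (1 + γ * (3 / 10) + M))))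
    (g := fun s => s ^ j * ff c a γ y 0 W s) (by linarith) intervalIntegrable_const
    (Continuous.intervalIntegrable (by fun_prop) _ _) fun s hs => by
      have h1 := (abs_le.1 (hM s ⟨ha.le.trans hs.1, by linarith [hs.2]⟩)).1
      have h2 : y ^ 10 * p a s ≤ 1 := by
        have e1 : (s - a) ^ 2 ≤ (1 / y ^ 5) ^ 2 :=
          pow_le_pow_left₀ (by linarith [hs.1]) (by linarith [hs.2]) 2
        have e2 : (1 - s) ^ 2 ≤ 1 := pow_le_one₀ (by linarith [hs.2]) (by linarith [hs.1])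
        calc y ^ 10 * p a s ≤ y ^ 10 * ((1 / y ^ 5) ^ 2 * 1) := by unfold p; gcongr
          _ = 1 := by field_simp
      have h3 : γ * s ≤ γ * (3 / 10) := by gcongr; linarith [hs.2]
      refine mul_le_mul (pow_le_pow_left₀ ha.le hs.1 _) (Real.exp_le_exp.2 ?_) (Real.exp_pos _).le
        (pow_nonneg (ha.le.trans hs.1) _)
      nlinarith
  rw [intervalIntegral.integral_const, add_sub_cancel_left, smul_eq_mul, one_div_mul_eq_div] at this
  exact this

include hc hγ hM in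
lemma ff_le {u s : ℝ} (hs : s ∈ Icc (0 : ℝ) 4) (hu : u ≤ s) :
    ff c a γ y 0 W s ≤ Real.exp (c * (M - γ * u)) * Real.exp (-(y ^ 10 * p a s)) := by
  rw [ff, ← Real.exp_add]
  refine Real.exp_le_exp.2 ?_
  have h1 := (abs_le.1 (hM s hs)).2
  have h2 : 0 ≤ y ^ 10 * p a s := mul_nonneg (by positivity) (p_nonneg a s)
  have h3 : γ * u ≤ γ * s := by gcongr
  nlinarith

include hc hγ hy hW hM in
lemma mass_le {u v x₀ : ℝ} (hu : 0 ≤ u) (huv : u ≤ v) (hv : v ≤ 4)
    (hp : ∀ s ∈ Icc u v, (s - x₀) ^ 2 / 16 ≤ p a s) :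
    mass j (ff c a γ y 0 W) u v ≤ 4 ^ j * Real.exp (c * (M - γ * u)) * 8 / y ^ 5 := by
  have hcf := (contDiff_ff c a γ y 0 hW).continuous
  have hb : 0 < y ^ 10 / 16 := by positivity
  have hi : Integrable fun s : ℝ => Real.exp (-(y ^ 10 / 16) * (s - x₀) ^ 2) :=
    (integrable_exp_neg_mul_sq hb).comp_sub_right x₀
  have h1 : ∫ s : ℝ, Real.exp (-(y ^ 10 / 16) * (s - x₀) ^ 2) ≤ 8 / y ^ 5 := by
    rw [integral_sub_right_eq_self (fun s : ℝ => Real.exp (-(y ^ 10 / 16) * s ^ 2)) x₀,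
      integral_gaussian]
    refine Real.sqrt_le_iff.2 ⟨by positivity, ?_⟩
    rw [div_le_iff₀ hb]
    have : (8 / y ^ 5) ^ 2 * (y ^ 10 / 16) = 4 := by field_simp; norm_num
    linarith [Real.pi_le_four]
  calc mass j (ff c a γ y 0 W) u v ≤ ∫ s in u..v, 4 ^ j * Real.exp (c * (M - γ * u)) *
        Real.exp (-(y ^ 10 / 16) * (s - x₀) ^ 2) := by
        refine intervalIntegral.integral_mono_on huv
          (Continuous.intervalIntegrable (by fun_prop) _ _)
          (Continuous.intervalIntegrable (by fun_prop) _ _) fun s hs => ?_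
        have h2 := ff_le (a := a) (y := y) hc hγ hM ⟨hu.trans hs.1, hs.2.trans hv⟩ hs.1
        have h3 : Real.exp (-(y ^ 10 * p a s)) ≤ Real.exp (-(y ^ 10 / 16) * (s - x₀) ^ 2) := by
          refine Real.exp_le_exp.2 ?_
          have := mul_le_mul_of_nonneg_left (hp s hs) (show 0 ≤ y ^ 10 by positivity)
          linarith
        rw [mul_assoc]
        exact mul_le_mul (pow_le_pow_left₀ (hu.trans hs.1) (hs.2.trans hv) _)
          (h2.trans (by gcongr)) (ff_pos _ _ _ _ _ _ s).le (by positivity)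
    _ ≤ _ := by
        rw [intervalIntegral.integral_const_mul, mul_div_assoc, intervalIntegral.integral_of_le huv]
        gcongr
        exact (setIntegral_le_integral hi
          (Eventually.of_forall fun s => (Real.exp_pos _).le)).trans h1

end

lemma package (j : ℕ) {c a m η : ℝ} {W : ℝ → ℝ} (hc : 1 ≤ c) (ha : 0 < a) (ha' : a ≤ 1 / 4)
    (hm : 0 < m) (hη : 0 < η) (hW : ContDiff ℝ ∞ W) :
    ∃ γ K : ℝ, 0 ≤ γ ∧ 1 ≤ K ∧ ∀ y, 2 ≤ y → ∃ c₀ : ℝ,
      mass j (ff c a γ y c₀ W) 0 4 = m ∧ mass j (ff c a γ y c₀ W) (1 / 2) 4 ≤ η ∧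
      (∀ s ∈ Icc (0 : ℝ) 4, ff c a γ y c₀ W s ≤ K * y ^ 5 * Real.exp (-(c * (y ^ 10 * p a s)))) ∧
      y ^ 5 ≤ K * Real.exp (c * c₀) ∧ Real.exp (c * c₀) ≤ K * y ^ 5 := by
  obtain ⟨M, hM⟩ := isCompact_Icc.exists_bound_of_continuousOn
    (hW.continuous.continuousOn (s := Icc (0 : ℝ) 4))
  have hM0 : 0 ≤ M := (norm_nonneg _).trans (hM 0 ⟨le_rfl, by norm_num⟩)
  set L : ℝ := m / a ^ j * (4 ^ j * 8) * Real.exp (c * (1 + 2 * M)) with hL
  have hL0 : 0 < L := by positivity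
  set γ : ℝ := 5 * (L / η) with hγd
  have hγ : 0 ≤ γ := by positivity
  set K₁ : ℝ := m / a ^ j * Real.exp (c * (1 + γ * (3 / 10) + M)) with hK₁
  set K₂ : ℝ := 4 ^ j * Real.exp (c * M) * 16 / m with hK₂
  have p1 : 0 < K₁ := by positivity
  have p2 : 0 < K₂ := by positivity
  have p3 : 1 ≤ Real.exp (c * M) := Real.one_le_exp (by positivity)
  have p4 : K₁ ≤ K₁ * Real.exp (c * M) := le_mul_of_one_le_right p1.le p3
  refine ⟨γ, 1 + K₁ * Real.exp (c * M) + K₂, hγ, by linarith, fun y hy => ?_⟩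
  have hcf := (contDiff_ff c a γ y 0 hW).continuous
  set Z := mass j (ff c a γ y 0 W) 0 4 with hZ
  have z1 := Z_ge j hc ha ha' hγ hy hW hM
  have z0 : 0 < Z := lt_of_lt_of_le (by positivity) z1
  have y5 : 0 < y ^ 5 := by positivity
  have z2 := mass_le j (a := a) hc hγ hy hW hM (u := 0) (v := 1 / 2) (x₀ := a) le_rfl (by norm_num)
    (by norm_num) fun s hs => by
      have : 1 / 16 ≤ (1 - s) ^ 2 := by nlinarith [hs.1, hs.2]
      unfold p
      nlinarith [sq_nonneg (s - a)]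
  have z3 := mass_le j (a := a) hc hγ hy hW hM (u := 1 / 2) (v := 4) (x₀ := 1) (by norm_num)
    (by norm_num) le_rfl fun s hs => by
      have : 1 / 16 ≤ (s - a) ^ 2 := by nlinarith [hs.1]
      unfold p
      nlinarith [sq_nonneg (s - 1)]
  have e0 : Real.exp (c * (Real.log (m / Z) / c)) = m / Z := by
    rw [mul_div_cancel₀ _ (by linarith), Real.exp_log (by positivity)]
  have z4 : m / Z ≤ K₁ * y ^ 5 := by
    refine (div_le_div_of_nonneg_left hm.le (by positivity) z1).trans (le_of_eq ?_)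
    rw [hK₁, Real.exp_neg]
    field_simp
  refine ⟨Real.log (m / Z) / c, ?_, ?_, fun s hs => ?_, ?_, ?_⟩
  · rw [mass_ff, e0, div_mul_cancel₀ _ z0.ne']
  · rw [mass_ff, e0]
    have h1 : Real.exp (-(L / η)) ≤ η / L := by
      rw [Real.exp_neg, ← inv_div L η]
      exact inv_anti₀ (div_pos hL0 hη) (by linarith [Real.add_one_le_exp (L / η)])
    calc m / Z * mass j (ff c a γ y 0 W) (1 / 2) 4
        ≤ K₁ * y ^ 5 * (4 ^ j * Real.exp (c * (M - γ * (1 / 2))) * 8 / y ^ 5) :=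
          mul_le_mul z4 z3 (mass_nonneg j (fun s => (ff_pos _ _ _ _ _ _ s).le) (by norm_num)
            (by norm_num)) (by positivity)
      _ = L * Real.exp (-(c * (L / η))) := by
          have : Real.exp (c * (1 + γ * (3 / 10) + M)) * Real.exp (c * (M - γ * (1 / 2))) =
              Real.exp (c * (1 + 2 * M)) * Real.exp (-(c * (L / η))) := by
            rw [← Real.exp_add, ← Real.exp_add, hγd]
            congr 1
            ring
          calc _ = m / a ^ j * (4 ^ j * 8) * (Real.exp (c * (1 + γ * (3 / 10) + M)) *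
                Real.exp (c * (M - γ * (1 / 2)))) := by rw [hK₁]; field_simp
            _ = _ := by rw [this, ← mul_assoc]
      _ ≤ L * (η / L) := by
          gcongr
          refine le_trans (Real.exp_le_exp.2 ?_) h1
          have : 0 ≤ L / η := by positivity
          nlinarith
      _ = η := by field_simp
  · rw [ff_eq, e0]
    have h1 : ff c a γ y 0 W s ≤ Real.exp (c * M) * Real.exp (-(c * (y ^ 10 * p a s))) := by
      rw [ff, ← Real.exp_add]
      refine Real.exp_le_exp.2 ?_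
      have h1 := (abs_le.1 (hM s hs)).2
      have h3 : 0 ≤ γ * s := mul_nonneg hγ hs.1
      nlinarith
    calc m / Z * ff c a γ y 0 W s
        ≤ K₁ * y ^ 5 * (Real.exp (c * M) * Real.exp (-(c * (y ^ 10 * p a s)))) :=
          mul_le_mul z4 h1 (ff_pos _ _ _ _ _ _ s).le (by positivity)
      _ = K₁ * Real.exp (c * M) * y ^ 5 * Real.exp (-(c * (y ^ 10 * p a s))) := by ring
      _ ≤ _ := by gcongr; linarith
  · rw [e0]
    have h1 : Real.exp (c * (M - γ * (1 / 2))) ≤ Real.exp (c * M) :=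
      Real.exp_le_exp.2 (by nlinarith)
    have h2 : Z ≤ 4 ^ j * Real.exp (c * M) * 16 / y ^ 5 := by
      rw [hZ, ← mass_add j hcf 0 (1 / 2) 4]
      rw [mul_zero, sub_zero] at z2
      have : 4 ^ j * Real.exp (c * (M - γ * (1 / 2))) * 8 / y ^ 5 ≤
          4 ^ j * Real.exp (c * M) * 8 / y ^ 5 := by gcongr
      have e : 4 ^ j * Real.exp (c * M) * 16 / y ^ 5 =
          4 ^ j * Real.exp (c * M) * 8 / y ^ 5 + 4 ^ j * Real.exp (c * M) * 8 / y ^ 5 := by ring
      linarith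
    calc y ^ 5 = K₂ * (m / (4 ^ j * Real.exp (c * M) * 16 / y ^ 5)) := by rw [hK₂]; field_simp
      _ ≤ K₂ * (m / Z) := by gcongr
      _ ≤ _ := by gcongr; linarith
  · rw [e0]
    exact z4.trans (by gcongr; linarith)

lemma ev_exp (K : ℝ) {θ η : ℝ} (hθ : 0 < θ) (hη : 0 < η) :
    ∀ᶠ y : ℝ in atTop, K * y ^ 5 * Real.exp (-(y ^ 10 * θ)) ≤ η := by
  filter_upwards [eventually_ge_atTop 1, eventually_ge_atTop (|K| / (θ * η))] with y h1 h2
  have h3 : Real.exp (-(y ^ 10 * θ)) ≤ (y ^ 10 * θ)⁻¹ := by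
    rw [Real.exp_neg]
    exact inv_anti₀ (by positivity) (by linarith [Real.add_one_le_exp (y ^ 10 * θ)])
  have h4 : y ≤ y ^ 5 := le_self_pow₀ h1 (by norm_num)
  rw [div_le_iff₀ (by positivity)] at h2
  calc K * y ^ 5 * Real.exp (-(y ^ 10 * θ)) ≤ |K| * y ^ 5 * (y ^ 10 * θ)⁻¹ := by
        gcongr
        exact le_abs_self K
    _ = |K| / (y ^ 5 * θ) := by field_simp
    _ ≤ η := by
        rw [div_le_iff₀ (by positivity)]
        have : y * (θ * η) ≤ y ^ 5 * (θ * η) := by gcongr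
        linarith

/-- a density concentrated at `a` -/
structure Conc (j : ℕ) (a m δ η : ℝ) (f : ℝ → ℝ) : Prop where
  smooth : ContDiff ℝ ∞ f
  nonneg : ∀ s, 0 ≤ f s
  total : mass j f 0 4 = m
  left : ∀ s ∈ Icc 0 (a - δ), f s ≤ η
  right : mass j f (a + δ) 4 ≤ η

lemma conc_of (j : ℕ) {a m δ η : ℝ} {f : ℝ → ℝ} (ha' : a ≤ 1 / 4) (hδ : 0 < δ) (hδ' : δ ≤ a / 2)
    (hf : ContDiff ℝ ∞ f) (h0 : ∀ s, 0 ≤ f s) (h1 : mass j f 0 4 = m)
    (h2 : mass j f (1 / 2) 4 ≤ η / 2)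
    (h3 : ∀ s ∈ Icc (0 : ℝ) 4, δ ^ 2 / 4 ≤ p a s → f s ≤ η) : Conc j a m δ η f := by
  have h4 : ∀ s ∈ Icc (0 : ℝ) (1 / 2), δ ^ 2 ≤ (s - a) ^ 2 → f s ≤ η := fun s hs h =>
    h3 s ⟨hs.1, by linarith [hs.2]⟩ (by
      have : 1 / 4 ≤ (1 - s) ^ 2 := by nlinarith [hs.1, hs.2]
      unfold p
      nlinarith [sq_nonneg δ])
  refine ⟨hf, h0, h1, fun s hs => h4 s ⟨hs.1, by linarith [hs.2]⟩ (by nlinarith [hs.2]), ?_⟩
  have h5 := intervalIntegral.norm_integral_le_of_norm_le_const (a := a + δ) (b := 1 / 2) (C := η)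
    (f := fun s => s ^ j * f s) fun s hs => by
      rw [uIoc_of_le (by linarith)] at hs
      have hs0 : 0 ≤ s := by linarith [hs.1]
      rw [Real.norm_of_nonneg (mul_nonneg (pow_nonneg hs0 _) (h0 s))]
      exact (mul_le_of_le_one_left (h0 s) (pow_le_one₀ hs0 (by linarith [hs.2]))).trans
        (h4 s ⟨hs0, hs.2⟩ (by nlinarith [hs.1]))
  have hη : 0 ≤ η := (h0 0).trans (h4 0 ⟨le_rfl, by norm_num⟩ (by nlinarith))
  rw [abs_of_nonneg (by linarith)] at h5
  have h6 : mass j f (a + δ) (1 / 2) ≤ η / 2 := ((le_abs_self _).trans h5).trans (by nlinarith)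
  linarith [mass_add j hf.continuous (a + δ) (1 / 2) 4]

section

variable {j : ℕ} {a m δ η : ℝ} {f f' : ℝ → ℝ} (hδ : 0 < δ) (hδ' : δ ≤ a / 2)

lemma Conc.A_left (h : Conc j a m δ η f) {t : ℝ} (ht : t ∈ Icc 0 (a - δ)) : |A j f t| ≤ η :=
  abs_A_le j ht.1 fun s hs => by
    rw [abs_of_nonneg (h.nonneg s)]
    exact h.left s ⟨hs.1, hs.2.trans ht.2⟩

include hδ hδ' in
lemma Conc.A_mid (h : Conc j a m δ η f) {t : ℝ} (ht : t ∈ Icc (a / 2) 4) :
    |A j f t| ≤ m / (a / 2) ^ (j + 1) := by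
  have ht0 : 0 < t := by linarith [ht.1]
  have h1 := mass_nonneg j h.nonneg le_rfl ht0.le
  have h2 := mass_mono j h.smooth.continuous h.nonneg le_rfl le_rfl ht0.le ht.2
  have ha : 0 < a / 2 := by linarith
  rw [A_eq_mass j f ht0, abs_of_nonneg (by positivity), ← h.total]
  exact div_le_div₀ (h1.trans h2) h2 (by positivity) (pow_le_pow_left₀ ha.le ht.1 _)

include hδ hδ' in
lemma Conc.A_le (h : Conc j a m δ η f) :
    ∀ t ∈ Icc (0 : ℝ) 4, |A j f t| ≤ η + m / (a / 2) ^ (j + 1) := by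
  intro t ht
  have hη : 0 ≤ η := (abs_nonneg _).trans (h.A_left (t := 0) ⟨le_rfl, by linarith⟩)
  have ha : 0 < a := by linarith
  have hm : 0 ≤ m := h.total ▸ mass_nonneg j h.nonneg le_rfl (by norm_num)
  rcases le_total t (a / 2) with h1 | h1
  · exact (h.A_left ⟨ht.1, by linarith⟩).trans (le_add_of_nonneg_right (by positivity))
  · exact (h.A_mid hδ hδ' ⟨h1, ht.2⟩).trans (by linarith)

include hδ hδ' in
lemma Conc.close (h : Conc j a m δ η f) (h' : Conc j a m δ η f') :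
    ∀ t ∈ Icc (0 : ℝ) 4, |T j f t - T j f' t| ≤
      2 * η * (1 + 1 / a ^ (j + 1)) + δ * (m / (a / 2) ^ (j + 1)) := by
  intro t ht
  have hη : 0 ≤ η := (abs_nonneg _).trans (h.A_left (t := 0) ⟨le_rfl, by linarith⟩)
  have ha : 0 < a := by linarith
  have hm : 0 ≤ m := h.total ▸ mass_nonneg j h.nonneg le_rfl (by norm_num)
  have c1 := h.smooth.continuous
  have c2 := h'.smooth.continuous
  set L := m / (a / 2) ^ (j + 1) with hL
  have hL0 : 0 ≤ L := by positivity
  have q0 : 0 ≤ 1 / a ^ (j + 1) := by positivity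
  have hi : Integrable ((Icc (a - δ) (a + δ)).indicator fun _ : ℝ => L / 2) :=
    (integrable_indicator_iff measurableSet_Icc).2 (integrableOn_const (by simp))
  rw [← T_sub j c1 c2, T, ← Real.norm_eq_abs]
  refine (intervalIntegral.norm_integral_le_of_norm_le (g := fun τ =>
    η * (1 + 1 / a ^ (j + 1)) / 2 + (Icc (a - δ) (a + δ)).indicator (fun _ => L / 2) τ) ht.1
    (Eventually.of_forall fun τ hτ => ?_)
    (intervalIntegrable_const.add hi.intervalIntegrable)).trans ?_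
  · rw [A_sub j c1 c2, Real.norm_eq_abs, abs_div, abs_of_pos (by norm_num : (0 : ℝ) < 4)]
    have t4 : τ ≤ 4 := hτ.2.trans ht.2
    by_cases hin : τ ∈ Icc (a - δ) (a + δ)
    · rw [indicator_of_mem hin]
      have b1 := h.A_mid hδ hδ' (t := τ) ⟨by linarith [hin.1], t4⟩
      have b2 := h'.A_mid hδ hδ' (t := τ) ⟨by linarith [hin.1], t4⟩
      have := abs_sub (A j f τ) (A j f' τ)
      nlinarith
    · rw [indicator_of_notMem hin, add_zero]
      rcases le_total τ (a - δ) with h1 | h1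
      · have b1 := h.A_left (t := τ) ⟨hτ.1.le, h1⟩
        have b2 := h'.A_left (t := τ) ⟨hτ.1.le, h1⟩
        have := abs_sub (A j f τ) (A j f' τ)
        nlinarith
      · have h2 : a + δ ≤ τ := le_of_not_ge fun h2 => hin ⟨h1, h2⟩
        have b : ∀ g : ℝ → ℝ, Conc j a m δ η g → m - η ≤ mass j g 0 τ ∧ mass j g 0 τ ≤ m := by
          intro g hg
          have e := mass_add j hg.smooth.continuous 0 τ 4
          have e1 := mass_mono j hg.smooth.continuous hg.nonneg (by linarith) h2 t4 le_rfl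
          have e2 := mass_nonneg j hg.nonneg hτ.1.le t4
          constructor <;> linarith [hg.total, hg.right]
        have b3 : |mass j f 0 τ - mass j f' 0 τ| ≤ η :=
          abs_le.2 ⟨by linarith [(b f h).1, (b f' h').2], by linarith [(b f h).2, (b f' h').1]⟩
        have b4 : |A j f τ - A j f' τ| ≤ η / a ^ (j + 1) := by
          rw [A_eq_mass j f hτ.1, A_eq_mass j f' hτ.1, ← sub_div, abs_div,
            abs_of_pos (pow_pos hτ.1 _)]
          gcongr
          linarith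
        rw [div_eq_mul_one_div η] at b4
        nlinarith [mul_nonneg hη q0]
  · rw [intervalIntegral.integral_add intervalIntegrable_const hi.intervalIntegrable,
      intervalIntegral.integral_const, intervalIntegral.integral_of_le ht.1, sub_zero, smul_eq_mul]
    have b1 := setIntegral_le_integral (s := Ioc 0 t) hi
      (Eventually.of_forall fun τ => indicator_nonneg (fun _ _ => by positivity) τ)
    rw [integral_indicator_const (μ := volume) _ measurableSet_Icc,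
      Real.volume_real_Icc_of_le (by linarith), smul_eq_mul] at b1
    have b2 : 0 ≤ η * (1 + 1 / a ^ (j + 1)) := by positivity
    nlinarith [ht.2]

end

end Pool.Agent.Lib.MP_af5b7f_an.R
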