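import Pool.Agent.Lib.MP_af5b7f_an.Circle
import Pool.Agent.Lib.MP_af5b7f_an.R.Good

/-! Radial functions on Euclidean space. -/

set_option autoImplicit false

open Filter Topology MeasureTheory Set
open scoped ContDiff InnerProductSpace

noncomputable section

namespace Pool.Agent.Lib.MP_af5b7f_an.R

variable {E : Type} [NormedAddCommGroup E] [InnerProductSpace ℝ E]

/-- the radial function `g (|z|²)` -/
def lift (g : ℝ → ℝ) : E → ℝ := fun z => g (‖z‖ ^ 2)

lemma contDiff_lift {g : ℝ → ℝ} (hg : ContDiff ℝ ∞ g) : ContDiff ℝ ∞ (lift g : E → ℝ) :=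
  hg.comp (contDiff_norm_sq ℝ)

lemma hasFDerivAt_lift {g : ℝ → ℝ} (hg : ContDiff ℝ ∞ g) (z : E) :
    HasFDerivAt (lift g : E → ℝ) (deriv g (‖z‖ ^ 2) • ((2 : ℝ) • innerSL ℝ z)) z := by
  have h1 : HasFDerivAt (fun z : E => ‖z‖ ^ 2) ((2 : ℝ) • innerSL ℝ z) z := by
    have := (hasStrictFDerivAt_norm_sq z).hasFDerivAt
    rw [two_smul] at this ⊢
    exact this
  exact (hasDerivAt_smooth hg _).comp_hasFDerivAt z h1

variable [FiniteDimensional ℝ E]

lemma lap_lift {j : ℕ} (hE : Module.finrank ℝ E = 2 * (j + 1)) {g : ℝ → ℝ} (hg : ContDiff ℝ ∞ g) :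
    (Laplacian.laplacian (lift g : E → ℝ) : E → ℝ) =
      lift (fun t => 4 * (t * deriv (deriv g) t + (j + 1) * deriv g t)) := by
  rw [lap_eq_sum (stdOrthonormalBasis ℝ E) (contDiff_lift hg)]
  funext z
  have h1 : ∀ v : E, dd (lift g) v = fun z => lift (deriv g) z * (2 * ⟪z, v⟫_ℝ) := by
    intro v
    funext y
    unfold dd
    rw [(hasFDerivAt_lift hg y).fderiv]
    simp [lift]
  have h2 : ∀ v : E, dd (dd (lift g) v) v z =
      4 * deriv (deriv g) (‖z‖ ^ 2) * ⟪z, v⟫_ℝ ^ 2 + 2 * deriv g (‖z‖ ^ 2) * ‖v‖ ^ 2 := by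
    intro v
    rw [h1]
    have h3 : HasFDerivAt (fun z : E => 2 * ⟪z, v⟫_ℝ) ((2 : ℝ) • innerSL ℝ v) z := by
      have := ((innerSL ℝ v).hasFDerivAt (x := z)).const_mul 2
      simp only [innerSL_apply_apply] at this
      simp_rw [real_inner_comm v]
      exact this
    have h4 := (hasFDerivAt_lift (smooth_deriv hg) z).mul h3
    unfold dd
    rw [show (fun z : E => lift (deriv g) z * (2 * ⟪z, v⟫_ℝ)) =
      (lift (deriv g) * fun z : E => 2 * ⟪z, v⟫_ℝ) from rfl, h4.fderiv]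
    simp [lift]
    ring
  simp_rw [h2]
  rw [Finset.sum_add_distrib, ← Finset.mul_sum, ← Finset.mul_sum,
    (stdOrthonormalBasis ℝ E).sum_sq_inner_left]
  simp [lift, hE]
  ring

lemma lap_T {j : ℕ} (hE : Module.finrank ℝ E = 2 * (j + 1)) {g : ℝ → ℝ} (hg : ContDiff ℝ ∞ g) :
    (Laplacian.laplacian (lift (T j g) : E → ℝ) : E → ℝ) = lift g := by
  rw [lap_lift hE (contDiff_T j hg), deriv_T j hg.continuous]
  congr 1
  funext t
  rw [((hasDerivAt_A j hg t).div_const 4).deriv, ← A_ode j hg t]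
  ring

lemma lapPow_iter {j : ℕ} (hE : Module.finrank ℝ E = 2 * (j + 1)) {g : ℝ → ℝ}
    (hg : ContDiff ℝ ∞ g) (k : ℕ) : lapPow k (lift ((T j)^[k] g) : E → ℝ) = lift g := by
  induction k with
  | zero => rfl
  | succ k ih => rw [lapPow_succ, Function.iterate_succ_apply', lap_T hE (contDiff_iter j k hg), ih]

lemma deg_sq : Deg 3 (fun z : E => ‖z‖ ^ 2) := by
  simp_rw [← (stdOrthonormalBasis ℝ E).sum_sq_inner_right]
  exact Deg.sum _ fun i => (deg_clm (innerSL ℝ (stdOrthonormalBasis ℝ E i))).sq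

lemma deg_p (a : ℝ) : Deg 9 (lift (p a) : E → ℝ) :=
  (deg_sq.sub ((deg_const a).mono (by norm_num))).sq.mul
    (Deg.sub ((deg_const 1).mono (by norm_num)) deg_sq).sq

lemma lapPow_deg (k : ℕ) : ∀ {f : E → ℝ}, Deg (2 * k) f → lapPow k f = fun _ => 0 := by
  induction k with
  | zero => exact fun h => h
  | succ k ih => exact fun h => ih (Deg.lap (d := 2 * k) h)

lemma Good.contDiff {j : ℕ} {m c₁ a η B : ℝ} {U f : ℝ → ℝ} (h : Good j m c₁ a η B U f) :
    ContDiff ℝ ∞ U := by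
  obtain ⟨γ, c₀, rfl⟩ := h.form
  have h1 := contDiff_p a
  have h2 := contDiff_iter j (j + 1) h.smooth
  fun_prop

lemma Good.eqn {j : ℕ} (hj : 4 ≤ j) (hE : Module.finrank ℝ E = 2 * (j + 1)) {m c₁ a η B : ℝ}
    {U f : ℝ → ℝ} (h : Good j m c₁ a η B U f) (x : E) :
    (-1) ^ (j + 1) * lapPow (j + 1) (lift U : E → ℝ) x = f (‖x‖ ^ 2) := by
  obtain ⟨γ, c₀, rfl⟩ := h.form
  have h1 : Deg 9 (fun z : E => -B * lift (p a) z - γ * ‖z‖ ^ 2 + c₀) :=
    (((deg_p a).const_mul (-B)).sub ((deg_sq.const_mul γ).mono (by norm_num))).add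
      ((deg_const c₀).mono (by norm_num))
  have h2 := contDiff_lift (E := E) (contDiff_iter j (j + 1) h.smooth)
  have h3 := lapPow_add (j + 1) h1.contDiff ((contDiff_const (c := (-1 : ℝ) ^ (j + 1))).mul h2)
  rw [lapPow_mul _ _ h2, lapPow_iter hE h.smooth, lapPow_deg _ (h1.mono (by omega))] at h3
  have h4 := congrFun h3 x
  change lapPow (j + 1) (lift fun s => -B * p a s - γ * s + c₀ +
    (-1) ^ (j + 1) * (T j)^[j + 1] f s) x = _ at h4
  rw [h4, zero_add, ← mul_assoc, ← mul_pow]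
  simp [lift]

lemma lift_bound (N : ℕ) : ∃ C : ℝ, 0 < C ∧ ∀ (H : ℝ → ℝ) (η : ℝ) (x : E), ContDiff ℝ ∞ H →
    ‖x‖ ≤ 2 → (∀ i ≤ N, |iteratedDeriv i H (‖x‖ ^ 2)| ≤ η) →
    ∀ i ≤ N, ‖iteratedFDeriv ℝ i (lift H : E → ℝ) x‖ ≤ C * η := by
  obtain ⟨D, hD, h⟩ := exists_bound_upto (E := E) (contDiff_norm_sq ℝ) 2 N
  refine ⟨N.factorial * D ^ N, by positivity, fun H η x hH hx h1 i hi => ?_⟩
  have hη : 0 ≤ η := (abs_nonneg _).trans (h1 0 (Nat.zero_le _))
  refine (norm_iteratedFDeriv_comp_le hH (contDiff_norm_sq ℝ) (nat_le_infty i) x (C := η) (D := D)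
    (fun l hl => ?_) fun l h0 hl => ?_).trans ?_
  · rw [norm_iteratedFDeriv_eq_norm_iteratedDeriv]
    exact h1 l (hl.trans hi)
  · exact (h l (hl.trans hi) x hx).trans (le_self_pow₀ hD (by omega))
  · rw [mul_right_comm]
    gcongr

lemma holder_of {O : Set E} (hO : IsOpen O) {v : ℕ → E → ℝ} {w : E → ℝ}
    (hv : ∀ k, ContDiff ℝ ∞ (v k)) (hw : ContDiff ℝ ∞ w) (m : ℕ)
    (h : ∀ K ⊆ O, IsCompact K → ∀ η > (0 : ℝ), ∀ᶠ k in atTop, ∀ x ∈ K, ∀ i ≤ m + 1,
      ‖iteratedFDeriv ℝ i (fun x => v k x - w x) x‖ ≤ η) {α : ℝ} (h0 : 0 ≤ α) (h1 : α ≤ 1) :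
    TendstoCkHolder m α O v w := by
  have e : ∀ k i x, iteratedFDeriv ℝ i (v k) x - iteratedFDeriv ℝ i w x =
      iteratedFDeriv ℝ i (fun x => v k x - w x) x := fun k i x =>
    (fun_iteratedFDeriv_sub_apply ((hv k).contDiffAt.of_le (nat_le_infty i))
      (hw.contDiffAt.of_le (nat_le_infty i))).symm
  refine ⟨fun K hKO hK i hi => Metric.tendstoUniformlyOn_iff.2 fun η hη => ?_,
    fun K hKO hK η hη => ?_⟩
  · filter_upwards [h K hKO hK _ (half_pos hη)] with k hk x hx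
    rw [dist_comm, dist_eq_norm, e]
    linarith [hk x hx i (by omega)]
  · obtain ⟨d', hd', hsub⟩ := hK.exists_cthickening_subset_open hO hKO
    set d := min d' 1 with hd
    have d0 : 0 < d := lt_min hd' one_pos
    have d1 : d ≤ 1 := min_le_right _ _
    filter_upwards [h _ hsub hK.cthickening (η * d / 2) (by positivity)] with k hk x hx y hy
    rw [e, e]
    rcases le_total ‖x - y‖ d with h2 | h2
    · have hb : Metric.closedBall y d ⊆ Metric.cthickening d' K :=
        (Metric.closedBall_subset_closedBall (min_le_left _ _)).trans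
          (Metric.closedBall_subset_cthickening hy d')
      have h3 := Convex.norm_image_sub_le_of_norm_fderiv_le (𝕜 := ℝ)
        (f := iteratedFDeriv ℝ m fun x => v k x - w x) (C := η * d / 2)
        (fun z _ => ((hv k).sub hw).differentiable_iteratedFDeriv (nat_lt_infty m) z)
        (fun z hz => by rw [norm_fderiv_iteratedFDeriv]; exact hk z (hb hz) _ le_rfl)
        (convex_closedBall y d) (Metric.mem_closedBall_self d0.le) (mem_closedBall_iff_norm.2 h2)
      refine h3.trans (mul_le_mul (by nlinarith)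
        (Real.self_le_rpow_of_le_one (norm_nonneg _) (h2.trans d1) h1) (norm_nonneg _) hη.le)
    · have h3 := hk x (Metric.self_subset_cthickening K hx) m (by omega)
      have h4 := hk y (Metric.self_subset_cthickening K hy) m (by omega)
      have h5 : d ≤ ‖x - y‖ ^ α :=
        (Real.self_le_rpow_of_le_one d0.le d1 h1).trans (Real.rpow_le_rpow d0.le h2 h0)
      refine (norm_sub_le _ _).trans ?_
      nlinarith

variable [MeasurableSpace E] [BorelSpace E]

lemma polar {j : ℕ} (hE : Module.finrank ℝ E = 2 * (j + 1)) {F : ℝ → ℝ} (hF : Continuous F) {r : ℝ}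
    (hr : 0 ≤ r) : ∫ x in Metric.ball (0 : E) r, F (‖x‖ ^ 2) =
      (j + 1) * volume.real (Metric.ball (0 : E) 1) * mass j F 0 (r ^ 2) := by
  have : Nontrivial E := Module.nontrivial_of_finrank_pos (R := ℝ) (by omega)
  have h1 := integral_fun_norm_addHaar (volume : Measure E)
    ((Iio r).indicator fun y : ℝ => F (y ^ 2))
  have h2 : (fun x : E => (Iio r).indicator (fun y : ℝ => F (y ^ 2)) ‖x‖) =
      (Metric.ball (0 : E) r).indicator fun x => F (‖x‖ ^ 2) := by
    funext x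
    by_cases hx : ‖x‖ < r <;> simp [indicator, hx]
  have h3 := intervalIntegral.integral_comp_mul_deriv (a := 0) (b := r) (f := fun y => y ^ 2)
    (f' := fun y => 2 * y) (g := fun s => s ^ j * F s)
    (fun y _ => by simpa using hasDerivAt_pow 2 y) (by fun_prop) (by fun_prop)
  have h4 : (fun y : ℝ => y ^ (2 * (j + 1) - 1) • (Iio r).indicator (fun y : ℝ => F (y ^ 2)) y) =
      (Iio r).indicator fun y => 1 / 2 * (((fun s => s ^ j * F s) ∘ fun y => y ^ 2) y * (2 * y)) := by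
    funext y
    by_cases hy : y < r
    · simp only [indicator, mem_Iio, hy, if_true, smul_eq_mul, Function.comp,
        show 2 * (j + 1) - 1 = 2 * j + 1 by omega]
      ring
    · simp [indicator, hy]
  rw [h2, integral_indicator Metric.isOpen_ball.measurableSet, hE, h4,
    setIntegral_indicator measurableSet_Iio, Ioi_inter_Iio, integral_const_mul,
    ← integral_Ioc_eq_integral_Ioo, ← intervalIntegral.integral_of_le hr, h3] at h1
  rw [h1, mass]
  simp only [nsmul_eq_mul, smul_eq_mul, ne_eq, OfNat.ofNat_ne_zero, not_false_eq_true, zero_pow]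
  push_cast
  ring

end Pool.Agent.Lib.MP_af5b7f_an.R
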