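import Mathlib

/-! The radial inverse Laplacian in the variable `s = |x|²`. -/

set_option autoImplicit false

open Filter Topology MeasureTheory Set
open scoped ContDiff

noncomputable section

namespace Pool.Agent.Lib.MP_af5b7f_an.R

/-- weighted average over `[0, t]` -/
def A (j : ℕ) (g : ℝ → ℝ) (t : ℝ) : ℝ := ∫ σ in (0 : ℝ)..1, σ ^ j * g (σ * t)

/-- the radial inverse Laplacian in dimension `2 (j + 1)` -/
def T (j : ℕ) (g : ℝ → ℝ) (t : ℝ) : ℝ := ∫ τ in (0 : ℝ)..t, A j g τ / 4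

lemma continuous_A (j : ℕ) {g : ℝ → ℝ} (hg : Continuous g) : Continuous (A j g) :=
  intervalIntegral.continuous_parametric_intervalIntegral_of_continuous'
    (f := fun t σ => σ ^ j * g (σ * t)) (by fun_prop) 0 1

lemma smooth_deriv {g : ℝ → ℝ} (hg : ContDiff ℝ ∞ g) : ContDiff ℝ ∞ (deriv g) :=
  (contDiff_infty_iff_deriv.1 hg).2

lemma hasDerivAt_smooth {g : ℝ → ℝ} (hg : ContDiff ℝ ∞ g) (t : ℝ) : HasDerivAt g (deriv g t) t :=
  ((contDiff_infty_iff_deriv.1 hg).1 t).hasDerivAt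

lemma hasDerivAt_A (j : ℕ) {g : ℝ → ℝ} (hg : ContDiff ℝ ∞ g) (t : ℝ) :
    HasDerivAt (A j g) (A (j + 1) (deriv g) t) t := by
  have h0 := hg.continuous
  have h1 := (smooth_deriv hg).continuous
  obtain ⟨M, hM⟩ := (isCompact_closedBall (0 : ℝ) (|t| + 1)).exists_bound_of_continuousOn
    h1.continuousOn
  refine (intervalIntegral.hasDerivAt_integral_of_dominated_loc_of_deriv_le (μ := volume)
    (F := fun t σ => σ ^ j * g (σ * t)) (F' := fun t σ => σ ^ (j + 1) * deriv g (σ * t))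
    (bound := fun _ => M) (Metric.ball_mem_nhds t one_pos)
    (Eventually.of_forall fun x => Continuous.aestronglyMeasurable (by fun_prop))
    (Continuous.intervalIntegrable (by fun_prop) _ _)
    (Continuous.aestronglyMeasurable (by fun_prop))
    (Eventually.of_forall fun σ hσ x hx => ?_) intervalIntegrable_const
    (Eventually.of_forall fun σ _ x _ => ?_)).2
  · rw [uIoc_of_le zero_le_one] at hσ
    have hx' : |x| ≤ |t| + 1 := by
      have := abs_sub_abs_le_abs_sub x t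
      rw [Metric.mem_ball, Real.dist_eq] at hx
      linarith
    have h2 := hM (σ * x) (by
      rw [mem_closedBall_zero_iff, Real.norm_eq_abs, abs_mul, abs_of_pos hσ.1]
      nlinarith [abs_nonneg x, hσ.1, hσ.2])
    rw [norm_mul, Real.norm_of_nonneg (pow_nonneg hσ.1.le _)]
    exact (mul_le_of_le_one_left (norm_nonneg _) (pow_le_one₀ hσ.1.le hσ.2)).trans h2
  · have := ((hasDerivAt_smooth hg (σ * x)).comp x ((hasDerivAt_id x).const_mul σ)).const_mul (σ ^ j)
    refine this.congr_deriv ?_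
    ring

lemma deriv_A (j : ℕ) {g : ℝ → ℝ} (hg : ContDiff ℝ ∞ g) : deriv (A j g) = A (j + 1) (deriv g) :=
  funext fun t => (hasDerivAt_A j hg t).deriv

lemma contDiff_A (j : ℕ) {g : ℝ → ℝ} (hg : ContDiff ℝ ∞ g) : ContDiff ℝ ∞ (A j g) := by
  have : ∀ (k : ℕ) (j : ℕ) (g : ℝ → ℝ), ContDiff ℝ ∞ g → ContDiff ℝ k (A j g) := by
    intro k
    induction k with
    | zero => exact fun j g hg => contDiff_zero.2 (continuous_A j hg.continuous)
    | succ k ih =>
      intro j g hg
      rw [Nat.cast_succ, contDiff_succ_iff_deriv, deriv_A j hg]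
      exact ⟨fun t => (hasDerivAt_A j hg t).differentiableAt, by simp, ih _ _ (smooth_deriv hg)⟩
  exact contDiff_infty.2 fun k => this k j g hg

lemma hasDerivAt_T (j : ℕ) {g : ℝ → ℝ} (hg : Continuous g) (t : ℝ) :
    HasDerivAt (T j g) (A j g t / 4) t :=
  (((continuous_A j hg).div_const 4).integral_hasStrictDerivAt 0 t).hasDerivAt

lemma deriv_T (j : ℕ) {g : ℝ → ℝ} (hg : Continuous g) : deriv (T j g) = fun t => A j g t / 4 :=
  funext fun t => (hasDerivAt_T j hg t).deriv

lemma contDiff_T (j : ℕ) {g : ℝ → ℝ} (hg : ContDiff ℝ ∞ g) : ContDiff ℝ ∞ (T j g) := by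
  rw [contDiff_infty_iff_deriv, deriv_T j hg.continuous]
  exact ⟨fun t => (hasDerivAt_T j hg.continuous t).differentiableAt, (contDiff_A j hg).div_const 4⟩

lemma contDiff_iter (j k : ℕ) {g : ℝ → ℝ} (hg : ContDiff ℝ ∞ g) : ContDiff ℝ ∞ ((T j)^[k] g) := by
  induction k with
  | zero => exact hg
  | succ k ih => rw [Function.iterate_succ_apply']; exact contDiff_T j ih

lemma A_ode (j : ℕ) {g : ℝ → ℝ} (hg : ContDiff ℝ ∞ g) (t : ℝ) :
    t * A (j + 1) (deriv g) t + (j + 1) * A j g t = g t := by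
  have h0 := hg.continuous
  have h1 := (smooth_deriv hg).continuous
  have h := intervalIntegral.integral_eq_sub_of_hasDerivAt (a := 0) (b := 1)
    (f := fun σ : ℝ => σ ^ (j + 1) * g (σ * t))
    (f' := fun σ : ℝ => t * (σ ^ (j + 1) * deriv g (σ * t)) + (j + 1) * (σ ^ j * g (σ * t)))
    (fun σ _ => by
      have := (hasDerivAt_pow (j + 1) σ).mul
        ((hasDerivAt_smooth hg (σ * t)).comp σ ((hasDerivAt_id σ).mul_const t))
      refine this.congr_deriv ?_
      simp only [Function.comp, id, Nat.add_sub_cancel]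
      push_cast
      ring)
    (Continuous.intervalIntegrable (by fun_prop) _ _)
  rw [intervalIntegral.integral_add (Continuous.intervalIntegrable (by fun_prop) _ _)
    (Continuous.intervalIntegrable (by fun_prop) _ _), intervalIntegral.integral_const_mul,
    intervalIntegral.integral_const_mul] at h
  simpa [A] using h

lemma abs_A_le (j : ℕ) {g : ℝ → ℝ} {M t : ℝ} (ht : 0 ≤ t) (h : ∀ s ∈ Icc 0 t, |g s| ≤ M) :
    |A j g t| ≤ M := by
  have := intervalIntegral.norm_integral_le_of_norm_le_const (a := 0) (b := 1) (C := M)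
    (f := fun σ : ℝ => σ ^ j * g (σ * t)) fun σ hσ => by
      rw [uIoc_of_le zero_le_one] at hσ
      rw [norm_mul, Real.norm_of_nonneg (pow_nonneg hσ.1.le _)]
      exact (mul_le_of_le_one_left (norm_nonneg _) (pow_le_one₀ hσ.1.le hσ.2)).trans
        (h _ ⟨mul_nonneg hσ.1.le ht, mul_le_of_le_one_left ht hσ.2⟩)
  simpa [A] using this

lemma abs_T_le (j : ℕ) {g : ℝ → ℝ} {M : ℝ} (h : ∀ s ∈ Icc (0 : ℝ) 4, |A j g s| ≤ M) {t : ℝ}
    (ht : t ∈ Icc (0 : ℝ) 4) : |T j g t| ≤ M := by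
  have h0 : 0 ≤ M := (abs_nonneg _).trans (h 0 ⟨le_rfl, by norm_num⟩)
  have := intervalIntegral.norm_integral_le_of_norm_le_const (a := 0) (b := t) (C := M / 4)
    (f := fun τ : ℝ => A j g τ / 4) fun τ hτ => by
      rw [uIoc_of_le ht.1] at hτ
      rw [Real.norm_eq_abs, abs_div, abs_of_pos (by norm_num : (0 : ℝ) < 4)]
      gcongr
      exact h τ ⟨hτ.1.le, hτ.2.trans ht.2⟩
  rw [sub_zero, abs_of_nonneg ht.1] at this
  exact this.trans (by nlinarith [ht.2])

lemma abs_A_iter (j k : ℕ) {g : ℝ → ℝ} {M : ℝ} (h : ∀ s ∈ Icc (0 : ℝ) 4, |A j g s| ≤ M) :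
    ∀ s ∈ Icc (0 : ℝ) 4, |A j ((T j)^[k] g) s| ≤ M := by
  induction k with
  | zero => exact h
  | succ k ih =>
    rw [Function.iterate_succ_apply']
    exact fun s hs => abs_A_le j hs.1 fun τ hτ => abs_T_le j ih ⟨hτ.1, hτ.2.trans hs.2⟩

lemma A_sub (j : ℕ) {f g : ℝ → ℝ} (hf : Continuous f) (hg : Continuous g) (t : ℝ) :
    A j (fun s => f s - g s) t = A j f t - A j g t := by
  simp only [A, mul_sub]
  exact intervalIntegral.integral_sub (Continuous.intervalIntegrable (by fun_prop) _ _)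
    (Continuous.intervalIntegrable (by fun_prop) _ _)

lemma T_sub (j : ℕ) {f g : ℝ → ℝ} (hf : Continuous f) (hg : Continuous g) (t : ℝ) :
    T j (fun s => f s - g s) t = T j f t - T j g t := by
  simp only [T, A_sub j hf hg, sub_div]
  exact intervalIntegral.integral_sub (((continuous_A j hf).div_const 4).intervalIntegrable _ _)
    (((continuous_A j hg).div_const 4).intervalIntegrable _ _)

lemma iter_close (j k : ℕ) {f g : ℝ → ℝ} (hf : ContDiff ℝ ∞ f) (hg : ContDiff ℝ ∞ g) {M : ℝ}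
    (h : ∀ s ∈ Icc (0 : ℝ) 4, |f s - g s| ≤ M) :
    ∀ s ∈ Icc (0 : ℝ) 4, |(T j)^[k] f s - (T j)^[k] g s| ≤ M := by
  induction k with
  | zero => exact h
  | succ k ih =>
    intro s hs
    rw [Function.iterate_succ_apply', Function.iterate_succ_apply',
      ← T_sub j (contDiff_iter j k hf).continuous (contDiff_iter j k hg).continuous]
    exact abs_T_le j (fun τ hτ => abs_A_le j hτ.1 fun σ hσ => ih σ ⟨hσ.1, hσ.2.trans hτ.2⟩) hs

lemma smooth_iteratedDeriv (i : ℕ) {g : ℝ → ℝ} (hg : ContDiff ℝ ∞ g) :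
    ContDiff ℝ ∞ (iteratedDeriv i g) := by
  rw [iteratedDeriv_eq_iterate]
  exact hg.iterate_deriv i

lemma iteratedDeriv_A (j i : ℕ) {g : ℝ → ℝ} (hg : ContDiff ℝ ∞ g) :
    iteratedDeriv i (A j g) = A (j + i) (iteratedDeriv i g) := by
  induction i with
  | zero => simp
  | succ i ih =>
    rw [iteratedDeriv_succ, ih, deriv_A _ (smooth_iteratedDeriv i hg), iteratedDeriv_succ,
      add_assoc]

lemma A_deriv_bound (j : ℕ) {a : ℝ} (ha : 0 < a) (l : ℕ) : ∃ C : ℝ, 1 ≤ C ∧
    ∀ (g : ℝ → ℝ) (M s : ℝ), ContDiff ℝ ∞ g → a ≤ s → |A j g s| ≤ M →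
      (∀ i < l, |iteratedDeriv i g s| ≤ M) → ∀ i ≤ l, |iteratedDeriv i (A j g) s| ≤ C * M := by
  induction l with
  | zero =>
    refine ⟨1, le_rfl, fun g M s _ _ h _ i hi => ?_⟩
    rw [Nat.le_zero.1 hi]
    simpa using h
  | succ l ih =>
    obtain ⟨C, hC, h⟩ := ih
    have hp : 0 ≤ (1 + ((j + l : ℕ) + 1) * C) / a := by positivity
    refine ⟨C + (1 + ((j + l : ℕ) + 1) * C) / a, by linarith, fun g M s hg hs h0 h1 i hi => ?_⟩
    have hM : 0 ≤ M := (abs_nonneg _).trans h0
    have h2 := h g M s hg hs h0 fun i hi => h1 i (by omega)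
    rcases Nat.le_succ_iff.1 hi with hi | rfl
    · exact (h2 i hi).trans (by nlinarith)
    · have e := A_ode (j + l) (smooth_iteratedDeriv l hg) s
      rw [← iteratedDeriv_succ, add_assoc, ← iteratedDeriv_A j (l + 1) hg,
        ← iteratedDeriv_A j l hg] at e
      have h3 := h2 l le_rfl
      have h4 := h1 l (by omega)
      have h5 : a * |iteratedDeriv (l + 1) (A j g) s| ≤ (1 + ((j + l : ℕ) + 1) * C) * M := by
        calc a * |iteratedDeriv (l + 1) (A j g) s| ≤ |s * iteratedDeriv (l + 1) (A j g) s| := by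
              rw [abs_mul, abs_of_pos (ha.trans_le hs)]
              gcongr
          _ = |iteratedDeriv l g s - ((j + l : ℕ) + 1) * iteratedDeriv l (A j g) s| := by
              rw [← e]; congr 1; ring
          _ ≤ M + ((j + l : ℕ) + 1) * (C * M) := by
              refine (abs_sub _ _).trans (add_le_add h4 ?_)
              rw [abs_mul, abs_of_pos (by positivity)]
              gcongr
          _ = _ := by ring
      have h6 : |iteratedDeriv (l + 1) (A j g) s| ≤ (1 + ((j + l : ℕ) + 1) * C) / a * M := by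
        rw [div_mul_eq_mul_div, le_div_iff₀' ha]
        exact h5
      nlinarith

lemma iter_deriv_bound (j : ℕ) {a : ℝ} (ha : 0 < a) (k : ℕ) : ∃ C : ℝ, 1 ≤ C ∧
    ∀ (f : ℝ → ℝ) (M s : ℝ), ContDiff ℝ ∞ f → s ∈ Icc a 4 → |f s| ≤ M →
      (∀ τ ∈ Icc (0 : ℝ) 4, |A j f τ| ≤ M) →
      ∀ i ≤ 2 * k, |iteratedDeriv i ((T j)^[k] f) s| ≤ C * M := by
  induction k with
  | zero =>
    refine ⟨1, le_rfl, fun g M s _ _ h _ i hi => ?_⟩
    rw [Nat.le_zero.1 hi]
    simpa using h
  | succ k ih =>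
    obtain ⟨C, hC, h⟩ := ih
    obtain ⟨D, hD, h'⟩ := A_deriv_bound j ha (2 * k + 1)
    refine ⟨D * C, one_le_mul_of_one_le_of_one_le hD hC, fun f M s hf hs h0 h1 i hi => ?_⟩
    have hM : 0 ≤ M := (abs_nonneg _).trans h0
    have hs' : s ∈ Icc (0 : ℝ) 4 := ⟨ha.le.trans hs.1, hs.2⟩
    have hCM : M ≤ C * M := le_mul_of_one_le_left hM hC
    have hg := contDiff_iter j k hf
    rw [Function.iterate_succ_apply']
    rcases i with _ | i
    · rw [iteratedDeriv_zero, mul_assoc]
      exact ((abs_T_le j (abs_A_iter j k h1) hs').trans hCM).trans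
        (le_mul_of_one_le_left (hM.trans hCM) hD)
    · rw [iteratedDeriv_succ', deriv_T j hg.continuous, iteratedDeriv_div_const, abs_div,
        abs_of_pos (by norm_num : (0 : ℝ) < 4), mul_assoc]
      have := h' _ (C * M) s hg hs.1 ((abs_A_iter j k h1 s hs').trans hCM)
        (fun i hi => h f M s hf hs h0 h1 i (by omega)) i (by omega)
      linarith [abs_nonneg (iteratedDeriv i (A j ((T j)^[k] f)) s)]

/-- the mass function -/
def mass (j : ℕ) (f : ℝ → ℝ) (a b : ℝ) : ℝ := ∫ s in a..b, s ^ j * f s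

lemma A_eq_mass (j : ℕ) (f : ℝ → ℝ) {t : ℝ} (ht : 0 < t) :
    A j f t = mass j f 0 t / t ^ (j + 1) := by
  have h := intervalIntegral.integral_comp_mul_right (a := 0) (b := 1)
    (fun s => s ^ j * f s) ht.ne'
  simp only [zero_mul, one_mul, smul_eq_mul, mul_pow] at h
  have e : ∀ σ : ℝ, σ ^ j * t ^ j * f (σ * t) = t ^ j * (σ ^ j * f (σ * t)) := fun σ => by ring
  simp only [e, intervalIntegral.integral_const_mul] at h
  rw [mass, A, eq_div_iff (by positivity), pow_succ, mul_comm, mul_comm (t ^ j), mul_assoc, h,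
    ← mul_assoc, mul_inv_cancel₀ ht.ne', one_mul]

end Pool.Agent.Lib.MP_af5b7f_an.R
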